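import Pool.Agent.Lib.MP_fb5b0b_nt.W.Spec

/-!
MP_fb5b0b_nt, W, module Blk: choice of the residue class.
-/

set_option autoImplicit false

namespace Pool.Agent.Lib.MP_fb5b0b_nt.W

open Finset
open Pool.Agent.Lib.MP_9f2731_nt.GP
open Pool.Agent.Lib.MP_9f2731_nt.GP.Rel (av Ind pk HLFC Cut CutG)
open Pool.Agent.Lib.MP_9f2731_nt.GP.Asm (eb lfm)
open Pool.Agent.Lib.MP_9f2731_nt.SS (nl Fo dt CorLStmt MomLStmt Wq Rs Scl)

private theorem Blk_two {M w : ℕ} (hM : 1 ≤ M) (hw : 2 ≤ w) : 2 ≤ Wq M w := by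
  have h1 : 2 ∣ Wp w := by
    unfold Wp primorial
    exact Finset.dvd_prod_of_mem (fun p => p) (Finset.mem_filter.mpr
      ⟨Finset.mem_range.mpr (by omega), Nat.prime_two⟩)
  have h2 : 0 < Wp w := primorial_pos w
  exact Nat.le_of_dvd (Nat.mul_pos hM h2) (Dvd.dvd.mul_left h1 M)

theorem pBlk : S_Blk := by
  classical
  intro ι _ s B M w Z δ A hM hw hδ hB hs hQZ hA
  obtain ⟨hA1, hA2⟩ := hA
  set Q := Wq M w with hQ
  have hQ2 : 2 ≤ Q := Blk_two hM hw
  have hZ0 : 0 < Z := by omega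
  have hZr : (0 : ℝ) < Z := Nat.cast_pos.mpr hZ0
  set Lg := Real.log (2 * B * Z) with hLg
  have hLg0 : 0 ≤ Lg := by
    refine Real.log_nonneg ?_
    have h1 : (1 : ℝ) ≤ B := by exact_mod_cast hB
    have h2 : (1 : ℝ) ≤ Z := by exact_mod_cast hZ0
    nlinarith
  set R := (range Q).filter Q.Coprime with hR
  have hRc : R.card = Q.totient := rfl
  have hsr : ∀ i, (0 : ℝ) < s i := fun i => Nat.cast_pos.mpr (hs i).1
  -- the local estimate
  have hloc : ∀ i, ∑ p ∈ A.filter (fun p => s i * Z < p ∧ p ≤ 2 * s i * Z), Real.log p / p ≤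
      ∑ b ∈ R, Lg / (s i * Z) *
        ((A.filter (fun n => n % Q = b ∧ s i * Z < n ∧ n ≤ 2 * s i * Z)).card : ℝ) := by
    intro i
    have hee : (0 : ℝ) < s i * Z := mul_pos (hsr i) hZr
    have hone : ∀ p ∈ A.filter (fun p => s i * Z < p ∧ p ≤ 2 * s i * Z), Real.log p / p ≤
        ∑ b ∈ R, (if p % Q = b then Lg / (s i * Z) else 0) := by
      intro p hp
      obtain ⟨hpA, he1, he2⟩ := mem_filter.mp hp
      obtain ⟨hpp, hp1, hp2⟩ := hA1 p hpA
      have hb : p % Q ∈ R := by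
        rw [hR, mem_filter, mem_range]
        refine ⟨Nat.mod_lt _ (by omega), ?_⟩
        have h1 : Q.Coprime p := by
          rw [Nat.coprime_comm]
          refine (Nat.Prime.coprime_iff_not_dvd hpp).mpr fun h => ?_
          have := Nat.le_of_dvd (by omega) h
          omega
        unfold Nat.Coprime
        rw [Nat.gcd_comm, ← Nat.gcd_rec]
        exact h1
      rw [Finset.sum_ite_eq, if_pos hb]
      have hp0 : (0 : ℝ) < p := Nat.cast_pos.mpr hpp.pos
      refine div_le_div₀ hLg0 ?_ hee ?_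
      · refine Real.log_le_log hp0 ?_
        exact_mod_cast hp2
      · exact_mod_cast he1.le
    refine (sum_le_sum hone).trans (le_of_eq ?_)
    rw [sum_comm]
    refine sum_congr rfl fun b _ => ?_
    rw [← sum_filter, sum_const, nsmul_eq_mul, mul_comm, filter_filter]
    congr 3
    refine filter_congr fun p _ => ?_
    constructor
    · rintro ⟨⟨h1, h2⟩, h3⟩
      exact ⟨h3, h1, h2⟩
    · rintro ⟨h3, h1, h2⟩
      exact ⟨⟨h1, h2⟩, h3⟩
  have hsum : δ * (Fintype.card ι : ℝ) ≤ ∑ b ∈ R, ∑ i, Lg / (s i * Z) *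
      ((A.filter (fun n => n % Q = b ∧ s i * Z < n ∧ n ≤ 2 * s i * Z)).card : ℝ) := by
    refine hA2.trans ((sum_le_sum fun i _ => hloc i).trans (le_of_eq ?_))
    rw [sum_comm]
  have hRne : R.Nonempty := by
    rw [← card_pos, hRc]
    exact Nat.totient_pos.mpr (by omega)
  have hφ : (0 : ℝ) < Q.totient := Nat.cast_pos.mpr (Nat.totient_pos.mpr (by omega))
  obtain ⟨b, hb, hbe⟩ := exists_le_of_sum_le (s := R)
    (f := fun _ => δ * (Fintype.card ι : ℝ) / Q.totient)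
    (g := fun b => ∑ i, Lg / (s i * Z) *
      ((A.filter (fun n => n % Q = b ∧ s i * Z < n ∧ n ≤ 2 * s i * Z)).card : ℝ)) hRne (by
    rw [sum_const, nsmul_eq_mul, hRc, mul_div_cancel₀ _ hφ.ne']
    exact hsum)
  refine ⟨b, ⟨?_, ?_, ?_⟩, ?_⟩
  · by_contra h
    have h0 : b = 0 := by omega
    subst h0
    have h1 := (mem_filter.mp hb).2
    rw [Nat.coprime_zero_right] at h1
    omega
  · exact mem_range.mp (mem_filter.mp hb).1
  · exact ((mem_filter.mp hb).2).symm
  · have h1 : δ * (Fintype.card ι : ℝ) ≤ Q.totient * ∑ i, Lg / (s i * Z) *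
        ((A.filter (fun n => n % Q = b ∧ s i * Z < n ∧ n ≤ 2 * s i * Z)).card : ℝ) := by
      rw [div_le_iff₀ hφ] at hbe
      exact hbe.trans (le_of_eq (mul_comm _ _))
    have h2 := mul_le_mul_of_nonneg_right h1 hZr.le
    refine h2.trans (le_of_eq ?_)
    rw [mul_assoc, mul_assoc]
    refine congrArg _ ?_
    rw [sum_mul, mul_sum]
    refine sum_congr rfl fun i _ => ?_
    have h3 : (s i : ℝ) ≠ 0 := (hsr i).ne'
    field_simp

end Pool.Agent.Lib.MP_fb5b0b_nt.W
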