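import Pool.Agent.Lib.MP_fb5b0b_nt.W.Spec

/-!
MP_fb5b0b_nt, W, module Cnt (after MP_9f2731_nt, SS, module Cnt): double counting of the points of the windows.
-/

set_option autoImplicit false

open Finset

namespace Pool.Agent.Lib.MP_fb5b0b_nt.W

open Pool.Agent.Lib.MP_9f2731_nt.GP
open Pool.Agent.Lib.MP_9f2731_nt.GP.Rel (av Ind pk HLFC Cut CutG)
open Pool.Agent.Lib.MP_9f2731_nt.GP.Asm (eb lfm)
open Pool.Agent.Lib.MP_9f2731_nt.SS (nl Fo dt CorLStmt MomLStmt Wq Rs Scl)

/-- the numbers `y` of one residue class modulo `q` in the middle part of the window -/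
private theorem Cnt_ap {N q X m i : ℕ} (hN : 8 * q ≤ N) (hq : 0 < q) (hm : 2 * N ≤ m)
    (hmX : m ≤ q * X) (hi : i < N / (4 * q)) :
    N ≤ 4 * ((N + 3) / 4 + (m - (N + 3) / 4) % q + i * q) ∧
      2 * ((N + 3) / 4 + (m - (N + 3) / 4) % q + i * q) < N ∧
      1 ≤ (m - (N + 3) / 4) / q - i ∧ (m - (N + 3) / 4) / q - i ≤ X ∧
      q * ((m - (N + 3) / 4) / q - i) + ((N + 3) / 4 + (m - (N + 3) / 4) % q + i * q) = m := by
  obtain ⟨s, hs⟩ : ∃ s, s = (N + 3) / 4 := ⟨_, rfl⟩
  rw [← hs]
  have hs1 : 4 * s ≤ N + 3 := by omega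
  have hs2 : N ≤ 4 * s := by omega
  have hr := Nat.mod_lt (m - s) hq
  have hdm := Nat.div_add_mod (m - s) q
  have hK : 4 * q * (N / (4 * q)) ≤ N := Nat.mul_div_le N (4 * q)
  have hiK : (i + 1) * q * 4 ≤ N := by
    calc (i + 1) * q * 4 = 4 * q * (i + 1) := by ring
      _ ≤ 4 * q * (N / (4 * q)) := Nat.mul_le_mul_left _ hi
      _ ≤ N := hK
  have hiq : (i + 1) * q = i * q + q := by ring
  have hi2 : i + 1 ≤ (m - s) / q := by
    rw [Nat.le_div_iff_mul_le hq]
    omega
  have hX : (m - s) / q ≤ X := by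
    calc (m - s) / q ≤ (q * X) / q := Nat.div_le_div_right (by omega)
      _ = X := Nat.mul_div_cancel_left X hq
  refine ⟨by omega, by omega, by omega, by omega, ?_⟩
  obtain ⟨t, ht⟩ : ∃ t, (m - s) / q = i + t := ⟨(m - s) / q - i, by omega⟩
  rw [ht, Nat.add_sub_cancel_left]
  rw [ht] at hdm
  have h1 : q * (i + t) = i * q + q * t := by ring
  rw [h1] at hdm
  omega

theorem pCnt : S_Cnt := by
  intro M w b0 X N G _ A hb hG hN
  obtain ⟨hb1, hb2, hb3⟩ := hb
  have hQ0 : 0 < Wq M w := by omega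
  have hq0 : 0 < G := hG
  have h8 : 32 * G ≤ N := hN
  let P : Finset (ℕ × ZMod N) := (Icc 1 X ×ˢ univ).filter (fun q => N ≤ 4 * q.2.val ∧
    2 * q.2.val < N ∧ nl (fo M w b0 G q.2) q.1 ∈ A)
  have hP : ∑ b ∈ Icc 1 X, ((univ.filter (fun y : ZMod N => N ≤ 4 * y.val ∧ 2 * y.val < N ∧
      nl (fo M w b0 G y) b ∈ A)).card : ℝ) = (P.card : ℝ) := by
    rw [← Nat.cast_sum]
    congr 1
    unfold P
    rw [Finset.card_filter, Finset.sum_product]
    refine Finset.sum_congr rfl fun b _ => ?_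
    rw [Finset.card_filter]
  rw [hP]
  obtain ⟨S, hS⟩ : ∃ S : Finset ℕ, S = A.filter (fun n => n % Wq M w = b0 ∧
    Wq M w * (2 * N) < n ∧ n ≤ Wq M w * G * X) := ⟨_, rfl⟩
  rw [← hS]
  have hK : ∀ n ∈ S, N / (4 * G) ≤
      (P.filter (fun q => nl (fo M w b0 G q.2) q.1 = n)).card := by
    intro n hn
    rw [hS, Finset.mem_filter] at hn
    obtain ⟨hnA, hn1, hn2, hn3⟩ := hn
    have hnm : Wq M w * (n / Wq M w) + b0 = n := by
      have := Nat.div_add_mod n (Wq M w)
      rw [hn1] at this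
      exact this
    obtain ⟨m, hm⟩ : ∃ m, m = n / Wq M w := ⟨_, rfl⟩
    rw [← hm] at hnm
    have hm1 : 2 * N ≤ m := by
      have h1 : Wq M w * (2 * N) < Wq M w * (m + 1) := by
        calc Wq M w * (2 * N) < n := hn2
          _ = Wq M w * m + b0 := hnm.symm
          _ < Wq M w * m + Wq M w := by omega
          _ = Wq M w * (m + 1) := by ring
      have := Nat.lt_of_mul_lt_mul_left h1
      omega
    have hm2 : m ≤ G * X := by
      have h1 : Wq M w * m < Wq M w * (G * X) := by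
        calc Wq M w * m < Wq M w * m + b0 := by omega
          _ = n := hnm
          _ ≤ Wq M w * G * X := hn3
          _ = Wq M w * (G * X) := by ring
      exact (Nat.lt_of_mul_lt_mul_left h1).le
    rw [← Finset.card_range (N / (4 * G))]
    refine Finset.card_le_card_of_injOn (fun i => ((m - (N + 3) / 4) / G - i,
      (((N + 3) / 4 + (m - (N + 3) / 4) % G + i * G : ℕ) : ZMod N))) ?_ ?_
    · intro i hi
      have hi' : i < N / (4 * G) := by simpa using hi
      obtain ⟨a1, a2, a3, a4, a5⟩ := Cnt_ap (N := N) (q := G) (X := X) (m := m) (i := i)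
        (by omega) hq0 hm1 hm2 hi'
      have hv : (((N + 3) / 4 + (m - (N + 3) / 4) % G + i * G : ℕ) : ZMod N).val =
          (N + 3) / 4 + (m - (N + 3) / 4) % G + i * G :=
        ZMod.val_cast_of_lt (by omega)
      have hnl : nl (fo M w b0 G (((N + 3) / 4 + (m - (N + 3) / 4) % G + i * G : ℕ) :
          ZMod N)) ((m - (N + 3) / 4) / G - i) = n := by
        unfold nl fo
        simp only
        rw [hv, ← hnm]
        calc Wq M w * G * ((m - (N + 3) / 4) / G - i) +
            (Wq M w * ((N + 3) / 4 + (m - (N + 3) / 4) % G + i * G) + b0)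
            = Wq M w * (G * ((m - (N + 3) / 4) / G - i) +
              ((N + 3) / 4 + (m - (N + 3) / 4) % G + i * G)) + b0 := by ring
          _ = Wq M w * m + b0 := by rw [a5]
      simp only [Finset.coe_filter, Set.mem_ofPred_eq, P, Finset.mem_filter, Finset.mem_product,
        Finset.mem_Icc, Finset.mem_univ, and_true]
      rw [hnl, hv]
      exact ⟨⟨⟨a3, a4⟩, a1, a2, hnA⟩, rfl⟩
    · intro i hi j hj hij
      have hi' : i < N / (4 * G) := by simpa using hi
      have hj' : j < N / (4 * G) := by simpa using hj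
      obtain ⟨a1, a2, a3, a4, a5⟩ := Cnt_ap (N := N) (q := G) (X := X) (m := m) (i := i)
        (by omega) hq0 hm1 hm2 hi'
      obtain ⟨b1, b2, b3, b4, b5⟩ := Cnt_ap (N := N) (q := G) (X := X) (m := m) (i := j)
        (by omega) hq0 hm1 hm2 hj'
      have h1 := (Prod.mk.inj hij).1
      omega
  have hsum : S.card * (N / (4 * G)) ≤ P.card := by
    calc S.card * (N / (4 * G)) = ∑ n ∈ S, N / (4 * G) := by
          rw [Finset.sum_const, smul_eq_mul]
      _ ≤ ∑ n ∈ S, (P.filter (fun q => nl (fo M w b0 G q.2) q.1 = n)).card :=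
          Finset.sum_le_sum hK
      _ = ∑ n ∈ S, ((P.filter (fun q => nl (fo M w b0 G q.2) q.1 ∈ S)).filter
            (fun q => nl (fo M w b0 G q.2) q.1 = n)).card := by
          refine Finset.sum_congr rfl fun n hn => ?_
          congr 1
          ext q
          simp only [Finset.mem_filter]
          constructor
          · rintro ⟨h1, h2⟩
            exact ⟨⟨h1, by rw [h2]; exact hn⟩, h2⟩
          · rintro ⟨⟨h1, _⟩, h2⟩
            exact ⟨h1, h2⟩
      _ = (P.filter (fun q => nl (fo M w b0 G q.2) q.1 ∈ S)).card := by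
          refine (Finset.card_eq_sum_card_fiberwise fun q hq => ?_).symm
          simpa using (Finset.mem_filter.1 hq).2
      _ ≤ P.card := Finset.card_le_card (Finset.filter_subset _ _)
  have hGr : (0 : ℝ) < (G : ℝ) := by exact_mod_cast hq0
  have hKN : (N : ℝ) / (8 * G) ≤ ((N / (4 * G) : ℕ) : ℝ) := by
    have h1 : N < 4 * G * (N / (4 * G) + 1) := Nat.lt_mul_div_succ N (by positivity)
    have h2 : 1 ≤ N / (4 * G) := by
      rw [Nat.le_div_iff_mul_le (by positivity)]
      omega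
    have h3 : N ≤ 8 * G * (N / (4 * G)) := by
      calc N ≤ 4 * G * (N / (4 * G) + 1) := h1.le
        _ ≤ 4 * G * (N / (4 * G) + N / (4 * G)) := by gcongr
        _ = 8 * G * (N / (4 * G)) := by ring
    rw [div_le_iff₀ (by positivity)]
    have h4 : (N : ℝ) ≤ ((8 * G * (N / (4 * G)) : ℕ) : ℝ) := by exact_mod_cast h3
    push_cast at h4 ⊢
    linarith
  calc (N : ℝ) / (8 * G) * (S.card : ℝ) ≤ ((N / (4 * G) : ℕ) : ℝ) * (S.card : ℝ) := by
        gcongr
    _ = ((S.card * (N / (4 * G)) : ℕ) : ℝ) := by push_cast; ring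
    _ ≤ (P.card : ℝ) := by exact_mod_cast hsum

end Pool.Agent.Lib.MP_fb5b0b_nt.W
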