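import Pool.Agent.Lib.MP_fb5b0b_nt.W.Spec

/-!
MP_fb5b0b_nt, THEOREM W, module Fnl: the relative counting theorem in windows (assembly).
-/

set_option autoImplicit false

open Finset

namespace Pool.Agent.Lib.MP_fb5b0b_nt.W

open Pool.Agent.Lib.MP_9f2731_nt.GP
open Pool.Agent.Lib.MP_9f2731_nt.GP.Rel (av Ind pk HLFC Cut CutG)
open Pool.Agent.Lib.MP_9f2731_nt.GP.Asm (eb lfm)
open Pool.Agent.Lib.MP_9f2731_nt.SS (nl Fo dt CorLStmt MomLStmt Wq Rs Scl)

/-- The mean of a function with small cut norm. -/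
private theorem Fnl_av {G : Type} [AddCommGroup G] [Fintype G] {r : ℕ} {τ : ℝ} {u : G → ℝ}
    (h : CutG (r + 1) τ u) : |av u| ≤ τ := by
  have h4 := h (fun (_ : Fin (r + 1)) (_ : Fin (r + 1) → G) => (1 : ℝ)) (fun i =>
    ⟨fun x v => rfl, fun x => ⟨zero_le_one, le_rfl⟩⟩)
  have hc : (0 : ℝ) < (Fintype.card G : ℝ) := by
    have : 0 < Fintype.card G := Fintype.card_pos_iff.mpr ⟨0⟩
    exact_mod_cast this
  have h5 : av (fun y : Fin (r + 1) → G => u (∑ i, y i) *
      ∏ i : Fin (r + 1), (fun (_ : Fin (r + 1)) (_ : Fin (r + 1) → G) => (1 : ℝ)) i y) = av u := by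
    unfold av
    have h6 : ∑ y : Fin (r + 1) → G, u (∑ i, y i) *
        ∏ i : Fin (r + 1), (fun (_ : Fin (r + 1)) (_ : Fin (r + 1) → G) => (1 : ℝ)) i y =
        ∑ p : G × (Fin r → G), u (p.1 + ∑ i, p.2 i) := by
      refine (Fintype.sum_equiv (Fin.consEquiv (fun _ => G)) _ _ ?_).symm
      rintro ⟨a, z⟩
      simp [Fin.consEquiv, Fin.sum_univ_succ]
    have h7 : ∀ z : Fin r → G, ∑ a : G, u (a + ∑ i, z i) = ∑ a, u a := fun z =>
      Fintype.sum_equiv (Equiv.addRight (∑ i, z i)) _ _ (fun a => rfl)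
    have h8 : (Fintype.card (Fin (r + 1) → G) : ℝ) = (Fintype.card G : ℝ) ^ r *
        Fintype.card G := by
      rw [Fintype.card_fun, Fintype.card_fin]
      push_cast
      ring
    have h9 : (Fintype.card (Fin r → G) : ℝ) = (Fintype.card G : ℝ) ^ r := by
      rw [Fintype.card_fun, Fintype.card_fin]
      push_cast
      ring
    rw [h6, Fintype.sum_prod_type_right]
    simp only [h7]
    rw [Finset.sum_const, Finset.card_univ, nsmul_eq_mul, h8, h9]
    exact mul_div_mul_left _ _ (by positivity)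
  rw [h5] at h4
  exact h4

private theorem Fnl_av1 {G : Type} [AddCommGroup G] [Fintype G] {k : ℕ} (hk : 1 ≤ k) {τ : ℝ}
    {u : G → ℝ} (h : CutG k τ u) : |av u| ≤ τ := by
  obtain ⟨r, rfl⟩ : ∃ r, k = r + 1 := ⟨k - 1, by omega⟩
  exact Fnl_av h

private theorem Fnl_Lf {N k : ℕ} (ex : ℕ → ℕ) (j : Fin (k + 1)) (hj : (j : ℕ) < k)
    (x : Fin (k + 1) → ZMod N) (v : ZMod N) :
    Lf k ex j (Function.update x j v) = Lf k ex j x := by
  unfold Lf
  have h1 : Fin.last k ≠ j := by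
    intro h
    rw [← h, Fin.val_last] at hj
    exact lt_irrefl _ hj
  rw [Function.update_of_ne h1]
  congr 1
  refine Finset.sum_congr rfl fun l _ => ?_
  by_cases h : l.castSucc = j
  · have h2 : (j : ℕ) = (l : ℕ) := by rw [← h, Fin.val_castSucc]
    rw [h2, sub_self, zero_mul, zero_mul]
  · rw [Function.update_of_ne h]

private theorem Fnl_ind {N k : ℕ} (f : ℕ → ZMod N → ℝ) (q : ZMod N → ℝ) (ex : ℕ → ℕ)
    (j : Fin (k + 1)) : Ind j (gW k f q ex j) := by
  intro x v
  unfold gW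
  by_cases hj : (j : ℕ) < k
  · rw [if_pos hj, if_pos hj, Fnl_Lf ex j hj]
  · rw [if_neg hj, if_neg hj]
    congr 1
    refine Finset.sum_congr rfl fun l _ => ?_
    rw [Function.update_of_ne]
    intro h
    apply hj
    rw [← h, Fin.val_castSucc]
    exact l.2

private theorem Fnl_inj {N : ℕ} {a b : ℕ} (ha : a < N) (hb : b < N)
    (h : (a : ZMod N) = (b : ZMod N)) : a = b := by
  have : NeZero N := ⟨by omega⟩
  have h4 := congrArg ZMod.val h
  rwa [ZMod.val_natCast_of_lt ha, ZMod.val_natCast_of_lt hb] at h4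

private theorem Fnl_card (B N : ℕ) [NeZero N] (hB : 1 ≤ B) (hN : 32 * B ≤ N) :
    (N : ℝ) ≤ 16 * B *
      ((univ.filter (fun a : ZMod N => 1 ≤ a.val ∧ a.val * (8 * B) < N)).card : ℝ) := by
  have hp : 0 < 8 * B := by omega
  have hN0 : 0 < N := Nat.pos_of_ne_zero (NeZero.ne N)
  have hlt : ∀ n ∈ Icc 1 ((N - 1) / (8 * B)), n * (8 * B) < N := by
    intro n hn
    have h1 := Nat.mul_le_mul_right (8 * B) (mem_Icc.1 hn).2
    have h2 := Nat.div_mul_le_self (N - 1) (8 * B)
    omega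
  have hlt2 : ∀ n ∈ Icc 1 ((N - 1) / (8 * B)), n < N := by
    intro n hn
    have h1 := hlt n hn
    have h2 : n * 1 ≤ n * (8 * B) := Nat.mul_le_mul_left n hp
    omega
  have hcard : (N - 1) / (8 * B) ≤
      (univ.filter (fun a : ZMod N => 1 ≤ a.val ∧ a.val * (8 * B) < N)).card := by
    have h1 := Finset.card_le_card_of_injOn (s := Icc 1 ((N - 1) / (8 * B)))
      (t := univ.filter (fun a : ZMod N => 1 ≤ a.val ∧ a.val * (8 * B) < N))
      (fun n : ℕ => (n : ZMod N)) (by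
        intro n hn
        rw [Finset.mem_coe] at hn
        rw [Finset.mem_coe, mem_filter]
        refine ⟨mem_univ _, ?_⟩
        rw [ZMod.val_natCast_of_lt (hlt2 n hn)]
        exact ⟨(mem_Icc.1 hn).1, hlt n hn⟩) (by
        intro n hn m hm hnm
        rw [Finset.mem_coe] at hn hm
        have h2 := congrArg ZMod.val hnm
        simp only at h2
        rw [ZMod.val_natCast_of_lt (hlt2 n hn), ZMod.val_natCast_of_lt (hlt2 m hm)] at h2
        exact h2)
    rwa [Nat.card_Icc, Nat.add_sub_cancel] at h1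
  have h6 : N ≤ 16 * B * ((N - 1) / (8 * B)) := by
    have h7 := Nat.div_add_mod (N - 1) (8 * B)
    have h8 := Nat.mod_lt (N - 1) hp
    have h9 : 16 * B * ((N - 1) / (8 * B)) = 2 * (8 * B * ((N - 1) / (8 * B))) := by ring
    rw [h9]
    omega
  have h7 : N ≤ 16 * B *
      (univ.filter (fun a : ZMod N => 1 ≤ a.val ∧ a.val * (8 * B) < N)).card :=
    h6.trans (Nat.mul_le_mul_left _ hcard)
  exact_mod_cast h7

open Classical in
theorem pFnl (hP : S_Pos) (hCl : MP_9f2731_nt.GP.Rel.ClStmt)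
    (hDm : MP_9f2731_nt.GP.Rel.DmtStmt) (hNu : MP_9f2731_nt.GP.Rel.NucStmt)
    (hCut : S_Cut) (hCfg : S_Cfg) : S_Fnl := by
  intro k u δ hk hu hδ
  obtain ⟨n, B, hB, hsc, c, hc, hPD⟩ := hP k u (δ / 2) hk hu (by positivity)
  have hBr : (1 : ℝ) ≤ B := by exact_mod_cast hB
  have hsc1 : ∀ w : Fin n → Fin k, 1 ≤ sc u w := fun w =>
    Nat.succ_le_of_lt (Finset.prod_pos fun t _ => hu.1 _ _ (w t).2)
  obtain ⟨η1, τ1, hη1, hτ1, hCl1⟩ := hCl (k + 1) (c / (16 * B) / 2) (by positivity)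
  obtain ⟨τ2, hτ2, hDm2⟩ := hDm k (min τ1 (δ / 2)) (by omega) (lt_min hτ1 (by positivity))
  obtain ⟨η2, hη2, hN2⟩ := hNu k τ2 hτ2
  refine ⟨n, B, hB, hsc, min η1 η2, max (k + 1) (32 * B), lt_min hη1 hη2, ?_⟩
  intro N _ hNp hN0 ν f hf hL hH hsum
  have hNk : k < N := lt_of_lt_of_le (Nat.lt_succ_self k) ((le_max_left _ _).trans hN0)
  have hNB : 32 * B ≤ N := (le_max_right _ _).trans hN0
  have hFact : Fact N.Prime := ⟨hNp⟩
  have hNr : (0 : ℝ) < N := by exact_mod_cast hNp.pos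
  have hinj : ∀ n : ℕ, 1 ≤ n → n ≤ k → Function.Injective (fun x : ZMod N => n • x) := by
    intro n hn1 hn2 x y hxy
    have h1 : (n : ZMod N) ≠ 0 := by
      intro h0
      rw [ZMod.natCast_eq_zero_iff] at h0
      have := Nat.le_of_dvd hn1 h0
      omega
    simp only [nsmul_eq_mul] at hxy
    exact mul_left_cancel₀ h1 hxy
  have hex : ∀ e, ∃ f' : ZMod N → ℝ, (∀ x, 0 ≤ f' x ∧ f' x ≤ 1) ∧
      (1 ≤ e → e ≤ B → CutG k (min τ1 (δ / 2)) (fun x => f e x - f' x)) := by
    intro e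
    by_cases he : 1 ≤ e ∧ e ≤ B
    · have hL2 : LFC (k + 1) η2 (ν e) := fun S hS =>
        (hL e he.1 he.2 S hS).trans (min_le_right _ _)
      obtain ⟨f', h1, h2⟩ := hDm2 (ZMod N) (ν e) (f e) (fun x => hf e x)
        (hN2 (ZMod N) (ν e) hinj hL2)
      exact ⟨f', h1, fun _ _ => h2⟩
    · exact ⟨fun _ => 0, fun x => ⟨le_rfl, zero_le_one⟩, fun h h' => absurd ⟨h, h'⟩ he⟩
  choose f' hf' hC using hex
  have hsum' : δ / 2 * (k : ℝ) ^ n * N ≤ ∑ w : Fin n → Fin k, ∑ x : ZMod N, f' (sc u w) x := by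
    have h1 : ∀ w ∈ (univ : Finset (Fin n → Fin k)),
        ∑ x : ZMod N, f (sc u w) x - δ / 2 * N ≤ ∑ x : ZMod N, f' (sc u w) x := by
      intro w _
      have h2 := hC (sc u w) (hsc1 w) (hsc w)
      have h3 := (Fnl_av1 (by omega) h2).trans (min_le_right _ _)
      have e1 : av (fun x => f (sc u w) x - f' (sc u w) x) =
          ((∑ x, f (sc u w) x) - ∑ x, f' (sc u w) x) / (N : ℝ) := by
        unfold av
        rw [Finset.sum_sub_distrib, ZMod.card]
      rw [e1] at h3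
      have e2 := (abs_le.1 h3).2
      rw [div_le_iff₀ hNr] at e2
      linarith
    have h2 := Finset.sum_le_sum h1
    rw [Finset.sum_sub_distrib, Finset.sum_const, Finset.card_univ, Fintype.card_fun,
      Fintype.card_fin, Fintype.card_fin, nsmul_eq_mul] at h2
    push_cast at h2
    linarith
  obtain ⟨W, c0, hW, hWn, hc0, hck, hcount⟩ := hPD N f'
    (univ.filter (fun a : ZMod N => 1 ≤ a.val ∧ a.val * (8 * B) < N)) hf' hsum'
  have hcne : ∀ l l' : ℕ, l < k → l' < k → l ≠ l' →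
      (pr u W c0 l : ZMod N) ≠ (pr u W c0 l' : ZMod N) := by
    intro l l' hl hl' hne h
    have h3 := (hck.1 l hl).2
    have h4 := (hck.1 l' hl').2
    exact hck.2 l l' hl hl' hne (Fnl_inj (by omega) (by omega) h)
  set q : ZMod N → ℝ := fun a => if 1 ≤ a.val ∧ a.val * (8 * B) < N then 1 else 0 with hq
  have hq01 : ∀ a, 0 ≤ q a ∧ q a ≤ 1 := by
    intro a
    simp only [hq]
    split_ifs
    · exact ⟨zero_le_one, le_rfl⟩
    · exact ⟨le_rfl, zero_le_one⟩
  have hcut : ∀ j : Fin (k + 1), Cut j τ1 (fun x : Fin (k + 1) → ZMod N =>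
      gW k f q (pr u W c0) j x - gW k f' q (pr u W c0) j x) := by
    intro j
    by_cases hj : (j : ℕ) < k
    · have h1 := hCut k N (pr u W c0) j (fun y => f (pr u W c0 j) y - f' (pr u W c0 j) y)
        (min τ1 (δ / 2)) hj hNp hcne (hC _ (hck.1 j hj).1 (hck.1 j hj).2)
      intro h hh
      have h2 := (h1 h hh).trans (min_le_left _ _)
      have h3 : (fun x : Fin (k + 1) → ZMod N =>
          gW k f q (pr u W c0) j x - gW k f' q (pr u W c0) j x) =
          fun x => f (pr u W c0 j) (Lf k (pr u W c0) j x) -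
            f' (pr u W c0 j) (Lf k (pr u W c0) j x) := by
        funext x
        unfold gW
        rw [if_pos hj, if_pos hj]
      rw [show (fun x : Fin (k + 1) → ZMod N =>
          (gW k f q (pr u W c0) j x - gW k f' q (pr u W c0) j x) *
            ∏ i ∈ univ.erase j, h i x) = fun x =>
          (f (pr u W c0 j) (Lf k (pr u W c0) j x) - f' (pr u W c0 j) (Lf k (pr u W c0) j x)) *
            ∏ i ∈ univ.erase j, h i x from by
        funext x
        rw [congrFun h3 x]]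
      exact h2
    · intro h hh
      have h3 : (fun x : Fin (k + 1) → ZMod N =>
          (gW k f q (pr u W c0) j x - gW k f' q (pr u W c0) j x) *
            ∏ i ∈ univ.erase j, h i x) = fun _ => 0 := by
        funext x
        unfold gW
        rw [if_neg hj, if_neg hj, sub_self, zero_mul]
      rw [h3]
      unfold av
      rw [Finset.sum_const_zero, zero_div, abs_zero]
      exact hτ1.le
  have hmain := hCl1 (ZMod N) (gW k ν (fun _ => 1) (pr u W c0)) (gW k f q (pr u W c0))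
    (gW k f' q (pr u W c0))
    (fun j => ⟨Fnl_ind ν _ _ j, Fnl_ind f q _ j, Fnl_ind f' q _ j⟩)
    (fun j x => by
      unfold gW
      by_cases hj : (j : ℕ) < k
      · rw [if_pos hj, if_pos hj]
        exact hf _ _
      · rw [if_neg hj, if_neg hj]
        exact hq01 _)
    (fun j x => by
      unfold gW
      by_cases hj : (j : ℕ) < k
      · rw [if_pos hj]
        exact hf' _ _
      · rw [if_neg hj]
        exact hq01 _)
    (fun S hS => (hH _ hck S hS).trans (min_le_left _ _)) hcut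
  rw [hCfg k N f q (pr u W c0) (by omega), hCfg k N f' q (pr u W c0) (by omega)] at hmain
  have h1 : (∑ a : ZMod N, ∑ h : ZMod N, q a * ∏ j ∈ range k,
      f' (pr u W c0 j) ((pr u W c0 j : ZMod N) * a + h)) =
      ∑ a ∈ univ.filter (fun a : ZMod N => 1 ≤ a.val ∧ a.val * (8 * B) < N),
        ∑ h : ZMod N, ∏ j ∈ range k, f' (pr u W c0 j) ((pr u W c0 j : ZMod N) * a + h) := by
    rw [Finset.sum_filter]
    refine Finset.sum_congr rfl fun a _ => ?_
    by_cases ha : 1 ≤ a.val ∧ a.val * (8 * B) < N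
    · rw [if_pos ha]
      refine Finset.sum_congr rfl fun h _ => ?_
      simp only [hq]
      rw [if_pos ha, one_mul]
    · rw [if_neg ha]
      refine Finset.sum_eq_zero fun h _ => ?_
      simp only [hq]
      rw [if_neg ha, zero_mul]
  rw [h1] at hmain
  have h2 : c / (16 * B) ≤
      (∑ a ∈ univ.filter (fun a : ZMod N => 1 ≤ a.val ∧ a.val * (8 * B) < N),
        ∑ h : ZMod N, ∏ j ∈ range k, f' (pr u W c0 j) ((pr u W c0 j : ZMod N) * a + h)) /
        (N : ℝ) ^ 2 := by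
    rw [div_le_div_iff₀ (by positivity) (by positivity)]
    have h3 := Fnl_card B N hB hNB
    have h4 := mul_le_mul_of_nonneg_left h3 (by positivity : (0 : ℝ) ≤ c * N)
    have h5 := mul_le_mul_of_nonneg_right hcount (by positivity : (0 : ℝ) ≤ (16 * B : ℝ))
    calc c * (N : ℝ) ^ 2 = c * N * N := by ring
      _ ≤ _ := h4
      _ = c * _ * N * (16 * B) := by ring
      _ ≤ _ := h5
  have h3 := (abs_le.1 hmain).1
  have hc' : (0 : ℝ) < c / (16 * B) := by positivity
  have h4 : 0 < (∑ a : ZMod N, ∑ h : ZMod N, q a * ∏ j ∈ range k,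
      f (pr u W c0 j) ((pr u W c0 j : ZMod N) * a + h)) / (N : ℝ) ^ 2 := by linarith
  have h5 : (∑ a : ZMod N, ∑ h : ZMod N, q a * ∏ j ∈ range k,
      f (pr u W c0 j) ((pr u W c0 j : ZMod N) * a + h)) ≠ 0 := by
    intro h0
    rw [h0, zero_div] at h4
    exact lt_irrefl _ h4
  obtain ⟨a, -, ha⟩ := Finset.exists_ne_zero_of_sum_ne_zero h5
  obtain ⟨h, -, hh⟩ := Finset.exists_ne_zero_of_sum_ne_zero ha
  have hqa := left_ne_zero_of_mul hh
  have hpr := right_ne_zero_of_mul hh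
  have hqa' : 1 ≤ a.val ∧ a.val * (8 * B) < N := by
    by_contra hcon
    apply hqa
    simp only [hq]
    rw [if_neg hcon]
  refine ⟨W, c0, hW, hWn, hc0, hck, a, h, hqa'.1, hqa'.2, ?_⟩
  intro j hj
  rw [Finset.prod_ne_zero_iff] at hpr
  have h6 := hpr j (mem_range.2 hj)
  exact lt_of_le_of_ne (hf _ _).1 (Ne.symm h6)

end Pool.Agent.Lib.MP_fb5b0b_nt.W
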