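import Pool.Agent.Lib.MP_fb5b0b_nt.W.Spec
import Pool.Agent.Lib.MP_9f2731_nt.GP.Asm.Gen

/-!
MP_fb5b0b_nt, W, module Gen: mean values of products of the majorant in the windows (an adaptation of
MP_9f2731_nt/SS/Gen.lean).
-/

set_option autoImplicit false

open Finset

namespace Pool.Agent.Lib.MP_fb5b0b_nt.W

open Pool.Agent.Lib.MP_9f2731_nt.GP
open Pool.Agent.Lib.MP_9f2731_nt.GP.Rel (av Ind pk HLFC Cut CutG)
open Pool.Agent.Lib.MP_9f2731_nt.GP.Asm (eb lfm)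
open Pool.Agent.Lib.MP_9f2731_nt.SS (nl Fo dt CorLStmt MomLStmt Wq Rs Scl)
open Pool.Agent.Lib.MP_9f2731_nt.GP.Asm.GenAux (sing_ge dbl_nonneg prod_le nu_nonneg av_mono av_add
  av_mul av_const av_sum eb_av)

private theorem Gen_xi_nonneg {C : ℝ} (hC : 0 ≤ C) (M w b0 : ℕ) {N : ℕ} (e e' : ℕ)
    (u v : ZMod N) : 0 ≤ Xi C M w b0 e e' u v := by
  unfold Xi
  split_ifs
  · exact le_rfl
  · have := sing_ge hC w (dt (fo M w b0 e u) (fo M w b0 e' v))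
    linarith

private theorem Gen_dbl_eq {ι : Type} [DecidableEq ι] (I : Finset ι) (F : ι → ι → ℝ) :
    ∑ i ∈ I, ∑ i' ∈ I.erase i, F i i' = ∑ p ∈ I.offDiag, F p.1 p.2 := by
  have h : I.offDiag = (I ×ˢ I).filter (fun p => p.2 ≠ p.1) := by
    ext p
    simp only [Finset.mem_offDiag, Finset.mem_filter, Finset.mem_product, and_assoc, ne_comm]
  rw [h, Pool.Agent.Lib.MP_9f2731_nt.GP.Asm.GenAux.dbl_eq]

private theorem Gen_pointwise {J B M w b0 : ℕ} {κ C1 C' C3 θ : ℝ} {X N : ℕ} [NeZero N]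
    (hκ : 0 < κ) (hC1 : 0 < C1) (hC' : C1 ≤ C')
    (hθ : 0 < θ) (hX : 1 ≤ X) (hL : (J : ℝ) + 2 ≤ Real.log X) (hC3 : 0 < C3)
    (hcor : ∀ (σ : Type) [Fintype σ] [DecidableEq σ] (a : σ → ℕ × ℕ) (Δ : ℕ),
      Fintype.card σ ≤ J → (∀ j, Fo w (a j)) → Δ ≠ 0 →
      (∀ j k, j ≠ k → dt (a j) (a k) ∣ Δ) →
      |(∑ b ∈ Icc 1 X, ∏ j, nu 2 w ((X : ℝ) ^ κ) (nl (a j) b)) / X - 1| ≤
        θ + C1 * (sing C1 w Δ - 1))
    (hmom : ∀ a : ℕ × ℕ, Fo w a →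
      (∑ b ∈ Icc 1 X, (nu 2 w ((X : ℝ) ^ κ) (nl a b)) ^ J) / X ≤ (Real.log X) ^ C3)
    (hfob : ∀ e e' : ℕ, (1 ≤ e ∧ e ≤ B) → (1 ≤ e' ∧ e' ≤ B) → ∀ y y' : ZMod N,
      Fo w (fo M w b0 e y) ∧
      (¬(e = e' ∧ y = y') → dt (fo M w b0 e y) (fo M w b0 e' y') ≠ 0))
    (hsng : ∀ (ι : Type) (P : Finset ι) (F : ι → ℕ), P.card ≤ J ^ 2 → (∀ i ∈ P, F i ≠ 0) →
      sing C1 w (∏ i ∈ P, F i) - 1 ≤ ∑ i ∈ P, (sing C' w (F i) - 1))
    {ι : Type} [DecidableEq ι] (I : Finset ι) (hI : I.card ≤ J) (ε : ι → ℕ)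
    (hε : ∀ i ∈ I, 1 ≤ ε i ∧ ε i ≤ B) (x : ι → ZMod N) :
    |eb X (fun b => ∏ i ∈ I, nub M w κ b0 X b (ε i) (x i)) - 1|
      ≤ θ + C' * ∑ i ∈ I, ∑ i' ∈ I.erase i, Xi C' M w b0 (ε i) (ε i') (x i) (x i')
        + (Real.log X) ^ (C3 + 1)
          * ∑ i ∈ I, ∑ i' ∈ I.erase i, (if ε i = ε i' ∧ x i = x i' then (1 : ℝ) else 0) := by
  classical
  have hC'0 : 0 < C' := lt_of_lt_of_le hC1 hC'
  have hX0 : (0 : ℝ) < X := by exact_mod_cast hX
  have hL1 : (1 : ℝ) ≤ Real.log X := by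
    have : (0 : ℝ) ≤ J := Nat.cast_nonneg J
    linarith
  have hL0 : (0 : ℝ) < Real.log X := by linarith
  have hXi : ∀ i i', 0 ≤ Xi C' M w b0 (ε i) (ε i') (x i) (x i') :=
    fun i i' => Gen_xi_nonneg hC'0.le M w b0 _ _ _ _
  have hEq : ∀ i i', (0 : ℝ) ≤ (if ε i = ε i' ∧ x i = x i' then (1 : ℝ) else 0) := by
    intro i i'
    split_ifs <;> norm_num
  have hA := dbl_nonneg I (fun i i' => Xi C' M w b0 (ε i) (ε i') (x i) (x i')) hXi
  have hB := dbl_nonneg I (fun i i' => (if ε i = ε i' ∧ x i = x i' then (1 : ℝ) else 0)) hEq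
  have hP : 0 ≤ (Real.log X) ^ (C3 + 1) := by positivity
  have hFo : ∀ i ∈ I, Fo w (fo M w b0 (ε i) (x i)) := fun i hi =>
    (hfob (ε i) (ε i) (hε i hi) (hε i hi) (x i) (x i)).1
  by_cases hj : ∀ i ∈ I, ∀ i' ∈ I, i ≠ i' → ¬(ε i = ε i' ∧ x i = x i')
  · -- no coincidence
    set a : {i // i ∈ I} → ℕ × ℕ := fun i => fo M w b0 (ε i.1) (x i.1) with ha
    set F : ι × ι → ℕ := fun p => dt (fo M w b0 (ε p.1) (x p.1)) (fo M w b0 (ε p.2) (x p.2)) with hF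
    have hFne : ∀ p ∈ I.offDiag, F p ≠ 0 := by
      intro p hp
      rw [Finset.mem_offDiag] at hp
      exact (hfob (ε p.1) (ε p.2) (hε _ hp.1) (hε _ hp.2.1) (x p.1) (x p.2)).2
        (hj p.1 hp.1 p.2 hp.2.1 hp.2.2)
    have hΔ : ∏ p ∈ I.offDiag, F p ≠ 0 := Finset.prod_ne_zero_iff.2 hFne
    have hcard : I.offDiag.card ≤ J ^ 2 := by
      rw [Finset.offDiag_card]
      calc I.card * I.card - I.card ≤ I.card * I.card := Nat.sub_le _ _
        _ ≤ J * J := Nat.mul_le_mul hI hI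
        _ = J ^ 2 := (sq J).symm
    have h1 := hcor {i // i ∈ I} a (∏ p ∈ I.offDiag, F p) (by rw [Fintype.card_coe]; exact hI)
      (fun j => hFo j.1 j.2) hΔ (by
        intro j k hjk
        have hmem : (j.1, k.1) ∈ I.offDiag := by
          rw [Finset.mem_offDiag]
          exact ⟨j.2, k.2, fun h => hjk (Subtype.ext h)⟩
        exact Finset.dvd_prod_of_mem F hmem)
    have h2 := hsng (ι × ι) I.offDiag F hcard hFne
    have hpe : ∀ b, ∏ j : {i // i ∈ I}, nu 2 w ((X : ℝ) ^ κ) (nl (a j) b)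
        = ∏ i ∈ I, nub M w κ b0 X b (ε i) (x i) := by
      intro b
      exact Finset.prod_coe_sort I (fun i => nu 2 w ((X : ℝ) ^ κ) (nl (fo M w b0 (ε i) (x i)) b))
    simp only [hpe] at h1
    have h3 : ∑ p ∈ I.offDiag, (sing C' w (F p) - 1)
        = ∑ i ∈ I, ∑ i' ∈ I.erase i, Xi C' M w b0 (ε i) (ε i') (x i) (x i') := by
      rw [Gen_dbl_eq]
      refine Finset.sum_congr rfl fun p hp => ?_
      rw [Finset.mem_offDiag] at hp
      unfold Xi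
      rw [if_neg (hj p.1 hp.1 p.2 hp.2.1 hp.2.2)]
    rw [h3] at h2
    have h4 : C1 * (sing C1 w (∏ p ∈ I.offDiag, F p) - 1)
        ≤ C' * ∑ i ∈ I, ∑ i' ∈ I.erase i, Xi C' M w b0 (ε i) (ε i') (x i) (x i') :=
      calc C1 * (sing C1 w (∏ p ∈ I.offDiag, F p) - 1)
          ≤ C1 * ∑ i ∈ I, ∑ i' ∈ I.erase i, Xi C' M w b0 (ε i) (ε i') (x i) (x i') :=
            mul_le_mul_of_nonneg_left h2 hC1.le
        _ ≤ _ := mul_le_mul_of_nonneg_right hC' hA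
    have h5 := mul_nonneg hP hB
    unfold eb
    linarith
  · -- a coincidence
    push Not at hj
    obtain ⟨i, hi, i', hi', hne, hxx⟩ := hj
    have hone : (1 : ℝ) ≤ ∑ i ∈ I, ∑ i' ∈ I.erase i,
        (if ε i = ε i' ∧ x i = x i' then (1 : ℝ) else 0) := by
      rw [Gen_dbl_eq]
      have hmem : (i, i') ∈ I.offDiag := by
        rw [Finset.mem_offDiag]
        exact ⟨hi, hi', hne⟩
      have h := Finset.single_le_sum
        (f := fun p : ι × ι => (if ε p.1 = ε p.2 ∧ x p.1 = x p.2 then (1 : ℝ) else 0))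
        (fun p _ => hEq p.1 p.2) hmem
      have h' : (if ε i = ε i' ∧ x i = x i' then (1 : ℝ) else 0) = 1 := if_pos hxx
      refine le_trans (le_of_eq h'.symm) ?_
      exact h
    have hnn : ∀ b i, 0 ≤ nub M w κ b0 X b (ε i) (x i) :=
      fun b i => nu_nonneg (by norm_num) hκ hX _
    have h1 : eb X (fun b => ∏ i ∈ I, nub M w κ b0 X b (ε i) (x i))
        ≤ 1 + J * (Real.log X) ^ C3 := by
      unfold eb
      have h2 : ∑ b ∈ Icc 1 X, ∏ i ∈ I, nub M w κ b0 X b (ε i) (x i)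
          ≤ ∑ b ∈ Icc 1 X, (1 + ∑ i ∈ I, nub M w κ b0 X b (ε i) (x i) ^ J) :=
        Finset.sum_le_sum fun b _ => prod_le I _ J (fun i _ => hnn b i) hI
      have h3 : ∑ b ∈ Icc 1 X, (1 + ∑ i ∈ I, nub M w κ b0 X b (ε i) (x i) ^ J)
          = X + ∑ i ∈ I, ∑ b ∈ Icc 1 X, nub M w κ b0 X b (ε i) (x i) ^ J := by
        rw [Finset.sum_add_distrib, Finset.sum_comm]
        simp
      rw [h3] at h2
      calc (∑ b ∈ Icc 1 X, ∏ i ∈ I, nub M w κ b0 X b (ε i) (x i)) / X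
          ≤ (X + ∑ i ∈ I, ∑ b ∈ Icc 1 X, nub M w κ b0 X b (ε i) (x i) ^ J) / X :=
            div_le_div_of_nonneg_right h2 hX0.le
        _ = 1 + ∑ i ∈ I, (∑ b ∈ Icc 1 X, nub M w κ b0 X b (ε i) (x i) ^ J) / X := by
            rw [add_div, div_self hX0.ne', Finset.sum_div]
        _ ≤ 1 + ∑ i ∈ I, (Real.log X) ^ C3 := by
            have h6 : ∑ i ∈ I, (∑ b ∈ Icc 1 X, nub M w κ b0 X b (ε i) (x i) ^ J) / X
                ≤ ∑ i ∈ I, (Real.log X) ^ C3 := Finset.sum_le_sum fun i hi => hmom _ (hFo i hi)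
            linarith
        _ = 1 + I.card * (Real.log X) ^ C3 := by simp
        _ ≤ 1 + J * (Real.log X) ^ C3 := by
            gcongr
    have h0 : 0 ≤ eb X (fun b => ∏ i ∈ I, nub M w κ b0 X b (ε i) (x i)) := by
      unfold eb
      exact div_nonneg (Finset.sum_nonneg fun b _ => Finset.prod_nonneg fun i _ => hnn b i) hX0.le
    have hpow : (1 : ℝ) ≤ (Real.log X) ^ C3 := Real.one_le_rpow hL1 hC3.le
    have h4 : 2 + J * (Real.log X) ^ C3 ≤ (Real.log X) ^ (C3 + 1) := by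
      rw [Real.rpow_add hL0, Real.rpow_one]
      calc 2 + J * (Real.log X) ^ C3 ≤ ((J : ℝ) + 2) * (Real.log X) ^ C3 := by nlinarith
        _ ≤ Real.log X * (Real.log X) ^ C3 := mul_le_mul_of_nonneg_right hL (by positivity)
        _ = _ := by ring
    have h5 : |eb X (fun b => ∏ i ∈ I, nub M w κ b0 X b (ε i) (x i)) - 1|
        ≤ 2 + J * (Real.log X) ^ C3 := by
      rw [abs_le]
      constructor <;> nlinarith
    have h6 : (Real.log X) ^ (C3 + 1) ≤ (Real.log X) ^ (C3 + 1)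
        * ∑ i ∈ I, ∑ i' ∈ I.erase i, (if ε i = ε i' ∧ x i = x i' then (1 : ℝ) else 0) := by
      nlinarith
    have h7 := mul_nonneg hC'0.le hA
    linarith

theorem pGen (hC : CorLStmt) (hM : MomLStmt) (hS : Pool.Agent.Lib.MP_9f2731_nt.SS.S_Sng)
    (hF : S_Fob) : S_Gen := by
  intro J hJ
  obtain ⟨κ, C1, hκ, hJκ, hC1, hcor⟩ := hC J
  obtain ⟨C3, hC3, hmom⟩ := hM J
  obtain ⟨C', hC', hsng⟩ := hS (J ^ 2) C1 hC1
  have hJ' : (1 : ℝ) ≤ J := by exact_mod_cast hJ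
  refine ⟨κ, C', C3 + 1, hκ, ?_, lt_of_lt_of_le hC1 hC', by linarith, ?_⟩
  · nlinarith
  intro B M θ hM1 hθ
  obtain ⟨w0, hw0⟩ := hcor θ hθ
  obtain ⟨w1, hw1⟩ := hF.1 B
  refine ⟨max (max w0 w1) (max (max M B) 2), ?_⟩
  intro w hw
  have hwa : w0 ≤ w := ((le_max_left _ _).trans (le_max_left _ _)).trans hw
  have hwb : w1 ≤ w := ((le_max_right _ _).trans (le_max_left _ _)).trans hw
  have hwc : M ≤ w := (((le_max_left _ _).trans (le_max_left _ _)).trans (le_max_right _ _)).trans hw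
  have hwe : B ≤ w := (((le_max_right _ _).trans (le_max_left _ _)).trans (le_max_right _ _)).trans hw
  have hwd : 2 ≤ w := ((le_max_right _ _).trans (le_max_right _ _)).trans hw
  obtain ⟨X1, hX1⟩ := hw0 w hwa
  obtain ⟨X2, hX2⟩ := hmom w κ hκ hJκ
  refine ⟨max (max X1 X2) (Real.exp ((J : ℝ) + 2)), ?_⟩
  intro X hX b0 hb0 N _ Y _ _ ι _ I ε ψ hI hε
  have hXa : X1 ≤ X := ((le_max_left _ _).trans (le_max_left _ _)).trans hX
  have hXb : X2 ≤ X := ((le_max_right _ _).trans (le_max_left _ _)).trans hX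
  have hXc : Real.exp ((J : ℝ) + 2) ≤ X := (le_max_right _ _).trans hX
  have hXp : (0 : ℝ) < X := lt_of_lt_of_le (Real.exp_pos _) hXc
  have hL : (J : ℝ) + 2 ≤ Real.log X := (Real.le_log_iff_exp_le hXp).2 hXc
  have hX1' : 1 ≤ X := by exact_mod_cast hXp
  have hfob : ∀ e e' : ℕ, (1 ≤ e ∧ e ≤ B) → (1 ≤ e' ∧ e' ≤ B) → ∀ y y' : ZMod N,
      Fo w (fo M w b0 e y) ∧
      (¬(e = e' ∧ y = y') → dt (fo M w b0 e y) (fo M w b0 e' y') ≠ 0) := by
    intro e e' he he' y y'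
    have h := hF.2 M w B b0 N hM1 hwc hwd hwe (hw1 w hwb) hb0 e e' he.1 he.2 he'.1 he'.2 y y'
    exact ⟨h.1, h.2.1⟩
  have hpt := fun y => Gen_pointwise (M := M) (b0 := b0) hκ hC1 hC' hθ hX1' hL hC3 (hX1 X hXa)
    (hX2 X hXb) hfob (hsng w) I hI ε hε (fun i => ψ i y)
  have h1 : eb X (fun b => av (fun y => ∏ i ∈ I, nub M w κ b0 X b (ε i) (ψ i y)))
      = av (fun y => eb X (fun b => ∏ i ∈ I, nub M w κ b0 X b (ε i) (ψ i y))) :=
    eb_av X (fun b y => ∏ i ∈ I, nub M w κ b0 X b (ε i) (ψ i y))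
  rw [h1]
  have h2 : av (fun y => θ + C' * ∑ i ∈ I, ∑ i' ∈ I.erase i,
        Xi C' M w b0 (ε i) (ε i') (ψ i y) (ψ i' y)
        + (Real.log X) ^ (C3 + 1)
          * ∑ i ∈ I, ∑ i' ∈ I.erase i, (if ε i = ε i' ∧ ψ i y = ψ i' y then (1 : ℝ) else 0))
      = θ + C' * ∑ i ∈ I, ∑ i' ∈ I.erase i,
          av (fun y => Xi C' M w b0 (ε i) (ε i') (ψ i y) (ψ i' y)) +
        (Real.log X) ^ (C3 + 1) *
          ∑ i ∈ I, ∑ i' ∈ I.erase i,
            av (fun y => if ε i = ε i' ∧ ψ i y = ψ i' y then (1 : ℝ) else 0) := by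
    rw [av_add, av_add, av_const, av_mul, av_mul, av_sum, av_sum]
    simp only [av_sum]
  rw [← h2, abs_le]
  constructor
  · have h3 : av (fun y => -(θ + C' * ∑ i ∈ I, ∑ i' ∈ I.erase i,
        Xi C' M w b0 (ε i) (ε i') (ψ i y) (ψ i' y)
        + (Real.log X) ^ (C3 + 1)
          * ∑ i ∈ I, ∑ i' ∈ I.erase i, (if ε i = ε i' ∧ ψ i y = ψ i' y then (1 : ℝ) else 0)) + 1)
        ≤ av (fun y => eb X (fun b => ∏ i ∈ I, nub M w κ b0 X b (ε i) (ψ i y))) := by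
      refine av_mono fun y => ?_
      have := (abs_le.1 (hpt y)).1
      linarith
    have h4 : ∀ g : Y → ℝ, av (fun y => -(g y) + 1) = -av g + 1 := by
      intro g
      rw [av_add, av_const]
      have : av (fun y => -g y) = -av g := by
        have := av_mul (-1) g
        simpa using this
      rw [this]
    rw [h4] at h3
    linarith
  · have h3 : av (fun y => eb X (fun b => ∏ i ∈ I, nub M w κ b0 X b (ε i) (ψ i y)))
        ≤ av (fun y => (θ + C' * ∑ i ∈ I, ∑ i' ∈ I.erase i,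
        Xi C' M w b0 (ε i) (ε i') (ψ i y) (ψ i' y)
        + (Real.log X) ^ (C3 + 1)
          * ∑ i ∈ I, ∑ i' ∈ I.erase i, (if ε i = ε i' ∧ ψ i y = ψ i' y then (1 : ℝ) else 0))
            + 1) := by
      refine av_mono fun y => ?_
      have := (abs_le.1 (hpt y)).2
      linarith
    rw [av_add _ (fun _ => (1 : ℝ)), av_const] at h3
    linarith

end Pool.Agent.Lib.MP_fb5b0b_nt.W
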