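import Pool.Agent.Lib.MP_fb5b0b_nt.W.Spec

/-!
MP_fb5b0b_nt, THEOREM W, module Lin: the scales of a line.
-/

open Finset

namespace Pool.Agent.Lib.MP_fb5b0b_nt.W

open Pool.Agent.Lib.MP_9f2731_nt.GP
open Pool.Agent.Lib.MP_9f2731_nt.GP.Rel (av Ind pk HLFC Cut CutG)
open Pool.Agent.Lib.MP_9f2731_nt.GP.Asm (eb lfm)
open Pool.Agent.Lib.MP_9f2731_nt.SS (nl Fo dt CorLStmt MomLStmt Wq Rs Scl)

theorem pLin : S_Lin := by
  classical
  intro k n u wl hu hex
  have hpos : ∀ t j : ℕ, j < k → 0 < u t j := fun t j hj => hu.1 t j hj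
  let W : Finset ℕ := (univ.filter fun t : Fin n => wl t = none).map Fin.valEmbedding
  let c0 : ℕ := ∏ t : Fin n, (wl t).elim 1 fun i => u (t : ℕ) (i : ℕ)
  have hW : W.Nonempty := by
    obtain ⟨t, ht⟩ := hex
    exact ⟨(t : ℕ), Finset.mem_map.2 ⟨t, Finset.mem_filter.2 ⟨Finset.mem_univ t, ht⟩, rfl⟩⟩
  have hWn : W ⊆ range n := by
    intro x hx
    obtain ⟨t, _, rfl⟩ := Finset.mem_map.1 hx
    exact Finset.mem_range.2 t.isLt
  have hc0 : 0 < c0 := by
    refine Finset.prod_pos fun t _ => ?_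
    cases h : wl t with
    | none => exact Nat.one_pos
    | some i => exact hpos _ _ i.isLt
  have hpr : ∀ (j : ℕ) (hj : j < k), pr u W c0 j = sc u (lineMap wl ⟨j, hj⟩) := by
    intro j hj
    have h1 : ∏ t ∈ W, u t j = ∏ t : Fin n, if wl t = none then u (t : ℕ) j else 1 := by
      rw [← Finset.prod_filter]
      exact Finset.prod_map _ _ _
    unfold pr sc
    rw [h1, ← Finset.prod_mul_distrib]
    refine Finset.prod_congr rfl fun t _ => ?_
    unfold lineMap
    cases h : wl t with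
    | none => simp
    | some i => simp
  have hp0 : ∀ j : ℕ, j < k → 0 < pr u W c0 j := fun j hj =>
    Nat.mul_pos hc0 (Finset.prod_pos fun t _ => hpos t j hj)
  have hlt : ∀ i j : ℕ, i < j → j < k → pr u W c0 i < pr u W c0 j := by
    intro i j hij hj
    refine Nat.mul_lt_mul_of_pos_left ?_ hc0
    exact Finset.prod_lt_prod_of_nonempty (fun t _ => hpos t i (hij.trans hj))
      (fun t _ => hu.2 t i j hij hj) hW
  refine ⟨W, c0, hW, hWn, hc0, hpr, fun B hB => ⟨fun j hj => ⟨hp0 j hj, ?_⟩, ?_⟩⟩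
  · rw [hpr j hj]
    exact hB _
  · intro i j hi hj hij
    rcases lt_or_gt_of_ne hij with h | h
    · exact (hlt i j h hj).ne
    · exact (hlt j i h hi).ne'

end Pool.Agent.Lib.MP_fb5b0b_nt.W
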