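import Pool.Agent.Lib.MP_fb5b0b_nt.W.Spec

/-!
MP_fb5b0b_nt, W: sets of primes in long intervals.
-/

set_option autoImplicit false

open Finset

namespace Pool.Agent.Lib.MP_fb5b0b_nt.W

open Pool.Agent.Lib.MP_9f2731_nt.GP
open Pool.Agent.Lib.MP_9f2731_nt.GP.Rel (av Ind pk HLFC Cut CutG)
open Pool.Agent.Lib.MP_9f2731_nt.GP.Asm (eb lfm)
open Pool.Agent.Lib.MP_9f2731_nt.SS (nl Fo dt CorLStmt MomLStmt Wq Rs Scl)

/-- extension of the multipliers -/
private lemma Lng_ext (k : ℕ) (u : ℕ → ℕ → ℕ) (hu : Mul k u) :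
    ∃ u' : ℕ → ℕ → ℕ, Mul (max k 3) u' ∧ ∀ t j, j < k → u' t j = u t j := by
  refine ⟨fun t j => if j < k then u t j else (∑ i ∈ range k, u t i) + 1 + j, ⟨?_, ?_⟩, ?_⟩
  · intro t j _
    by_cases h : j < k
    · simp only [if_pos h]
      exact hu.1 t j h
    · simp only [if_neg h]
      omega
  · intro t i j hij _
    by_cases h : j < k
    · simp only [if_pos h, if_pos (hij.trans h)]
      exact hu.2 t i j hij h
    · by_cases h' : i < k
      · simp only [if_neg h, if_pos h']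
        have h1 : u t i ≤ ∑ i ∈ range k, u t i :=
          Finset.single_le_sum (f := fun i => u t i) (fun _ _ => Nat.zero_le _)
            (mem_range.mpr h')
        omega
      · simp only [if_neg h, if_neg h']
        omega
  · intro t j hj
    simp only [if_pos hj]

/-- the primes between Z and B Z -/
private lemma Lng_small (Z B : ℕ) (hZ : 1 ≤ Z) (S : Finset ℕ)
    (hS : ∀ p ∈ S, p.Prime ∧ Z < p ∧ p ≤ B * Z) :
    ∑ p ∈ S, Real.log p / p ≤ B * Real.log 4 := by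
  have hZ' : (0 : ℝ) < Z := by exact_mod_cast (by omega : 0 < Z)
  have h1 : ∑ p ∈ S, Real.log p / p ≤ ∑ p ∈ S, Real.log p / Z := by
    refine Finset.sum_le_sum fun p hp => ?_
    exact div_le_div_of_nonneg_left (Real.log_natCast_nonneg p) hZ'
      (by exact_mod_cast (hS p hp).2.1.le)
  have h3 : ∑ p ∈ S, Real.log p ≤ Chebyshev.theta ((B * Z : ℕ) : ℝ) := by
    rw [Chebyshev.theta, Nat.floor_natCast]
    refine Finset.sum_le_sum_of_subset_of_nonneg (fun p hp => ?_) fun p _ _ =>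
      Real.log_natCast_nonneg p
    rw [Finset.mem_filter, Finset.mem_Ioc]
    exact ⟨⟨(hS p hp).1.pos, (hS p hp).2.2⟩, (hS p hp).1⟩
  have h4 : Chebyshev.theta ((B * Z : ℕ) : ℝ) ≤ Real.log 4 * ((B * Z : ℕ) : ℝ) :=
    Chebyshev.theta_le_log4_mul_x (Nat.cast_nonneg _)
  calc ∑ p ∈ S, Real.log p / p ≤ ∑ p ∈ S, Real.log p / Z := h1
    _ = (∑ p ∈ S, Real.log p) / Z := (Finset.sum_div _ _ _).symm
    _ ≤ (Real.log 4 * ((B * Z : ℕ) : ℝ)) / Z := by
        apply div_le_div_of_nonneg_right (h3.trans h4) hZ'.le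
    _ = B * Real.log 4 := by
        push_cast
        field_simp

/-- a dense set is dense in one of the blocks -/
private lemma Lng_block {ι : Type} [Fintype ι] (s : ι → ℕ) (B : ℕ) (hs : ∀ i, 1 ≤ s i ∧ s i ≤ B)
    (δ : ℝ) (hδ : 0 < δ) (D : ℕ) (hD : 2 ≤ D) (hDB : B * Real.log 4 ≤ δ / 2 * (D * Real.log 2))
    (Z Y : ℕ) (hZ : 1 ≤ Z) (hY : 2 ^ D * Z ≤ Y) (A : Finset ℕ)
    (hA : ∀ p ∈ A, p.Prime ∧ Z < p ∧ p ≤ Y)
    (hsum : δ * Real.log (Y / Z) ≤ ∑ p ∈ A, Real.log p / p) :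
    ∃ j : ℕ, Dens s B (δ / 12) (2 ^ j * Z)
      (A.filter (fun p => 2 ^ j * Z < p ∧ p ≤ 2 * B * (2 ^ j * Z))) := by
  have hZpos : (0 : ℝ) < Z := by exact_mod_cast (by omega : 0 < Z)
  have hl2 : (0.69 : ℝ) < Real.log 2 := by have := Real.log_two_gt_d9; linarith
  have hl2' : 0 < Real.log 2 := by linarith
  set L : ℝ := Real.log (Y / Z) with hL
  have hYZ : (2 : ℝ) ^ D ≤ (Y : ℝ) / Z := by
    rw [le_div_iff₀ hZpos]
    exact_mod_cast hY
  have hLD : D * Real.log 2 ≤ L := by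
    rw [hL, ← Real.log_pow]
    exact Real.log_le_log (by positivity) hYZ
  have hD' : (2 : ℝ) ≤ D := by exact_mod_cast hD
  have hL1 : (1.38 : ℝ) < L := by nlinarith
  have hLpos : 0 < L := by linarith
  set n : ℕ := ⌈L / Real.log 2⌉₊ with hn
  have hn1 : L ≤ n * Real.log 2 := by
    have := Nat.le_ceil (L / Real.log 2)
    rw [div_le_iff₀ hl2'] at this
    exact this
  have hn2 : (n : ℝ) ≤ 3 * L := by
    have h1 : (n : ℝ) < L / Real.log 2 + 1 :=
      Nat.ceil_lt_add_one (div_nonneg hLpos.le (by positivity))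
    have h2 : L / Real.log 2 ≤ L / 0.69 := by
      exact div_le_div_of_nonneg_left hLpos.le (by norm_num) hl2.le
    have h3 : L / 0.69 = 100 / 69 * L := by ring
    nlinarith
  have hYn : (Y : ℝ) ≤ 2 ^ n * Z := by
    have h1 : (Y : ℝ) / Z ≤ 2 ^ n := by
      have hYpos : (0 : ℝ) < (Y : ℝ) / Z := lt_of_lt_of_le (by positivity) hYZ
      rw [← Real.log_le_log_iff hYpos (by positivity), Real.log_pow]
      exact hn1
    rwa [div_le_iff₀ hZpos] at h1
  have hYn' : Y ≤ 2 ^ n * Z := by exact_mod_cast hYn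
  have hn0 : 0 < n := by
    rcases Nat.eq_zero_or_pos n with h | h
    · rw [h] at hn1
      simp only [Nat.cast_zero, zero_mul] at hn1
      linarith
    · exact h
  by_contra hcon
  push Not at hcon
  -- every block is sparse
  have hb : ∀ j : ℕ, ∑ i, ∑ p ∈ A.filter (fun p => s i * (2 ^ j * Z) < p ∧
      p ≤ 2 * s i * (2 ^ j * Z)), Real.log p / p < δ / 12 * (Fintype.card ι : ℝ) := by
    intro j
    by_contra h
    refine hcon j ⟨fun p hp => ?_, ?_⟩
    · rw [Finset.mem_filter] at hp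
      exact ⟨(hA p hp.1).1, hp.2.1, hp.2.2⟩
    · refine (not_lt.mp h).trans (Finset.sum_le_sum fun i _ => ?_)
      refine Finset.sum_le_sum_of_subset_of_nonneg (fun p hp => ?_) fun p _ _ =>
        div_nonneg (Real.log_natCast_nonneg p) (Nat.cast_nonneg p)
      rw [Finset.mem_filter] at hp
      obtain ⟨hp1, hp2, hp3⟩ := hp
      rw [Finset.mem_filter, Finset.mem_filter]
      refine ⟨⟨hp1, ?_, ?_⟩, hp2, hp3⟩
      · exact lt_of_le_of_lt (Nat.le_mul_of_pos_left _ (hs i).1) hp2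
      · exact hp3.trans (Nat.mul_le_mul_right _ (Nat.mul_le_mul_left _ (hs i).2))
  -- the small primes
  have hsm : ∑ p ∈ A.filter (fun p => p ≤ B * Z), Real.log p / p ≤ B * Real.log 4 := by
    refine Lng_small Z B hZ _ fun p hp => ?_
    rw [Finset.mem_filter] at hp
    exact ⟨(hA p hp.1).1, (hA p hp.1).2.1, hp.2⟩
  have hbig : δ / 2 * L ≤ ∑ p ∈ A.filter (fun p => ¬ p ≤ B * Z), Real.log p / p := by
    have h1 := Finset.sum_filter_add_sum_filter_not A (fun p => p ≤ B * Z)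
      (fun p => Real.log (p : ℝ) / (p : ℝ))
    have h2 : δ / 2 * (D * Real.log 2) ≤ δ / 2 * L :=
      mul_le_mul_of_nonneg_left hLD (by positivity)
    linarith
  have hrow : ∀ i : ι, δ / 2 * L ≤ ∑ j ∈ range n, ∑ p ∈ A.filter (fun p => s i * (2 ^ j * Z) < p ∧
      p ≤ 2 * s i * (2 ^ j * Z)), Real.log p / p := by
    intro i
    refine hbig.trans ?_
    have hcov : ∀ p ∈ A.filter (fun p => ¬ p ≤ B * Z), ∃ j ∈ range n, s i * (2 ^ j * Z) < p ∧
        p ≤ 2 * s i * (2 ^ j * Z) := by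
      intro p hp
      rw [Finset.mem_filter] at hp
      obtain ⟨hp1, hp2⟩ := hp
      obtain ⟨-, -, h3⟩ := hA p hp1
      have h4 : p ≤ s i * (2 ^ n * Z) :=
        (h3.trans hYn').trans (Nat.le_mul_of_pos_left _ (hs i).1)
      have hex : ∃ j : ℕ, p ≤ s i * (2 ^ j * Z) := ⟨n, h4⟩
      classical
      have h5 := Nat.find_spec hex
      have h6 : Nat.find hex ≤ n := Nat.find_min' hex h4
      have h7 : Nat.find hex ≠ 0 := by
        intro h
        rw [h, pow_zero, one_mul] at h5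
        exact hp2 (h5.trans (Nat.mul_le_mul_right _ (hs i).2))
      obtain ⟨j, hj⟩ := Nat.exists_eq_succ_of_ne_zero h7
      have h8 := Nat.find_min hex (m := j) (by omega)
      refine ⟨j, Finset.mem_range.mpr (by omega), not_le.mp h8, ?_⟩
      rw [hj] at h5
      calc p ≤ s i * (2 ^ (j + 1) * Z) := h5
        _ = 2 * s i * (2 ^ j * Z) := by ring
    have hnn : ∀ (p j : ℕ), (0 : ℝ) ≤ (if s i * (2 ^ j * Z) < p ∧
        p ≤ 2 * s i * (2 ^ j * Z) then Real.log p / p else 0) := by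
      intro p j
      split_ifs
      · exact div_nonneg (Real.log_natCast_nonneg p) (Nat.cast_nonneg p)
      · exact le_rfl
    calc ∑ p ∈ A.filter (fun p => ¬ p ≤ B * Z), Real.log p / p
        ≤ ∑ p ∈ A.filter (fun p => ¬ p ≤ B * Z), ∑ j ∈ range n,
            (if s i * (2 ^ j * Z) < p ∧ p ≤ 2 * s i * (2 ^ j * Z)
              then Real.log p / p else 0) := by
          refine Finset.sum_le_sum fun p hp => ?_
          obtain ⟨j, hj, hc⟩ := hcov p hp
          have h1 := Finset.single_le_sum (f := fun j => (if s i * (2 ^ j * Z) < p ∧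
            p ≤ 2 * s i * (2 ^ j * Z) then Real.log p / p else 0)) (fun j _ => hnn p j) hj
          rw [if_pos hc] at h1
          exact h1
      _ ≤ ∑ p ∈ A, ∑ j ∈ range n, (if s i * (2 ^ j * Z) < p ∧ p ≤ 2 * s i * (2 ^ j * Z)
            then Real.log p / p else 0) := by
          refine Finset.sum_le_sum_of_subset_of_nonneg (Finset.filter_subset _ _) fun p _ _ => ?_
          exact Finset.sum_nonneg fun j _ => hnn p j
      _ = ∑ j ∈ range n, ∑ p ∈ A.filter (fun p => s i * (2 ^ j * Z) < p ∧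
            p ≤ 2 * s i * (2 ^ j * Z)), Real.log p / p := by
          rw [Finset.sum_comm]
          refine Finset.sum_congr rfl fun j _ => ?_
          rw [Finset.sum_filter]
  have htot1 : (Fintype.card ι : ℝ) * (δ / 2 * L) ≤
      ∑ i : ι, ∑ j ∈ range n, ∑ p ∈ A.filter (fun p => s i * (2 ^ j * Z) < p ∧
        p ≤ 2 * s i * (2 ^ j * Z)), Real.log p / p := by
    have h1 := Finset.sum_le_sum fun (i : ι) (_ : i ∈ (univ : Finset ι)) => hrow i
    rw [Finset.sum_const, Finset.card_univ, nsmul_eq_mul] at h1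
    exact h1
  rw [Finset.sum_comm] at htot1
  have htot2 : ∑ j ∈ range n, ∑ i : ι, ∑ p ∈ A.filter (fun p => s i * (2 ^ j * Z) < p ∧
      p ≤ 2 * s i * (2 ^ j * Z)), Real.log p / p < n * (δ / 12 * (Fintype.card ι : ℝ)) := by
    calc _ < ∑ j ∈ range n, δ / 12 * (Fintype.card ι : ℝ) :=
          Finset.sum_lt_sum_of_nonempty ⟨0, Finset.mem_range.mpr hn0⟩ fun j _ => hb j
      _ = n * (δ / 12 * (Fintype.card ι : ℝ)) := by
          rw [Finset.sum_const, Finset.card_range, nsmul_eq_mul]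
  have h9 : (n : ℝ) * (δ / 12 * (Fintype.card ι : ℝ)) ≤ (Fintype.card ι : ℝ) * (δ / 2 * L) := by
    have h10 : (0 : ℝ) ≤ δ / 12 * (Fintype.card ι : ℝ) := by positivity
    have h11 := mul_le_mul_of_nonneg_right hn2 h10
    have h12 : 0 ≤ (Fintype.card ι : ℝ) * δ * L := by positivity
    nlinarith
  linarith

/-- sizes -/
private lemma Lng_size (C : ℝ) (B : ℕ) : ∃ Z0 : ℕ, ∀ Z : ℕ, Z0 ≤ Z →
    1 ≤ Z ∧ (Real.log Z) ^ C ≤ (Z : ℝ) / 2 ∧ 4 * (B : ℝ) ^ 2 ≤ Z ∧
      2 * (2 : ℝ) ^ C ≤ Real.log Z := by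
  have h1 : ∀ᶠ x : ℝ in Filter.atTop, Real.log x ^ C ≤ x / 2 := by
    have h := (isLittleO_log_rpow_rpow_atTop (s := 1) C one_pos).bound
      (show (0 : ℝ) < 1 / 2 by norm_num)
    filter_upwards [h, Filter.eventually_ge_atTop 1] with x hx hx1
    rw [Real.norm_eq_abs, Real.norm_eq_abs, Real.rpow_one, abs_of_nonneg (by linarith : (0:ℝ) ≤ x)]
      at hx
    have := (le_abs_self _).trans hx
    linarith
  have h2 : ∀ᶠ x : ℝ in Filter.atTop, 4 * (B : ℝ) ^ 2 ≤ x := Filter.eventually_ge_atTop _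
  have h3 : ∀ᶠ x : ℝ in Filter.atTop, 2 * (2 : ℝ) ^ C ≤ Real.log x :=
    Real.tendsto_log_atTop.eventually_ge_atTop _
  have h4 : ∀ᶠ x : ℝ in Filter.atTop, (1 : ℝ) ≤ x := Filter.eventually_ge_atTop _
  obtain ⟨x0, hx0⟩ := Filter.eventually_atTop.mp (h1.and (h2.and (h3.and h4)))
  refine ⟨⌈x0⌉₊, fun Z hZ => ?_⟩
  have h5 : x0 ≤ (Z : ℝ) := (Nat.le_ceil x0).trans (by exact_mod_cast hZ)
  obtain ⟨g1, g2, g3, g4⟩ := hx0 Z h5
  exact ⟨by exact_mod_cast g4, g1, g2, g3⟩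

theorem pLng (hB : S_Bas) : S_Lng := by
  intro k
  obtain ⟨C, hC, hB⟩ := hB (max k 3) (le_max_right _ _)
  refine ⟨C + 1, fun u hu δ hδ => ?_⟩
  obtain ⟨u', hu', huu⟩ := Lng_ext k u hu
  obtain ⟨n, B, hB1, hsB, hB⟩ := hB u' hu' (δ / 12) (by positivity)
  have hs1 : ∀ w : Fin n → Fin (max k 3), 1 ≤ sc u' w ∧ sc u' w ≤ B := by
    intro w
    refine ⟨?_, hsB w⟩
    rw [sc]
    exact Nat.one_le_iff_ne_zero.mpr (Finset.prod_ne_zero_iff.mpr fun t _ =>
      Nat.one_le_iff_ne_zero.mp (hu'.1 t (w t) (w t).2))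
  have hl2 : 0 < Real.log 2 := Real.log_pos (by norm_num)
  obtain ⟨D1, hD1⟩ := exists_nat_ge (B * Real.log 4 / (δ / 2 * Real.log 2))
  set D : ℕ := max (max n 2) D1 with hDdef
  have hDn : n ≤ D := (le_max_left _ _).trans (le_max_left _ _)
  have hD2 : 2 ≤ D := (le_max_right _ _).trans (le_max_left _ _)
  have hDD : D1 ≤ D := le_max_right _ _
  have hDB : B * Real.log 4 ≤ δ / 2 * (D * Real.log 2) := by
    rw [div_le_iff₀ (by positivity)] at hD1
    have h1 : (D1 : ℝ) ≤ D := by exact_mod_cast hDD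
    calc B * Real.log 4 ≤ D1 * (δ / 2 * Real.log 2) := hD1
      _ ≤ D * (δ / 2 * Real.log 2) := mul_le_mul_of_nonneg_right h1 (by positivity)
      _ = δ / 2 * (D * Real.log 2) := by ring
  refine ⟨D, fun M hM => ?_⟩
  obtain ⟨Z0, hB⟩ := hB M hM
  obtain ⟨Z1, hZ1⟩ := Lng_size C B
  refine ⟨max Z0 Z1, fun Z Y hZ hY A hA hs => ?_⟩
  have hZ0 : Z0 ≤ Z := le_trans (le_max_left _ _) hZ
  have hZZ1 : Z1 ≤ Z := le_trans (le_max_right _ _) hZ
  have hZpos : 1 ≤ Z := (hZ1 Z hZZ1).1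
  obtain ⟨j0, hj0⟩ := Lng_block (fun w : Fin n → Fin (max k 3) => sc u' w) B hs1 δ hδ D hD2 hDB
    Z Y hZpos hY A hA hs
  have hZi : Z ≤ 2 ^ j0 * Z := Nat.le_mul_of_pos_left _ (by positivity)
  obtain ⟨W, c0, m, h, h1, h2, h3, h4, h5, h6, h7, h8, h9⟩ := hB _ (hZ0.trans hZi) _ hj0
  obtain ⟨g1, g2, g3, g4⟩ := hZ1 _ (hZZ1.trans hZi)
  set Z' : ℕ := 2 ^ j0 * Z with hZ'
  have hZ'pos : (0 : ℝ) < Z' := by exact_mod_cast g1
  have hBpos : (0 : ℝ) < B := by exact_mod_cast hB1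
  -- the size of m
  have hm : (Z' : ℝ) / 2 ≤ B * m := by
    have e1 := h9 0 (lt_of_lt_of_le (by norm_num) (le_max_right k 3))
    rw [Finset.mem_filter] at e1
    have e2 : (Z' : ℝ) < (pr u' W c0 0 * m + h : ℕ) := by exact_mod_cast e1.2.1
    have e3 : pr u' W c0 0 ≤ B := (h4.1 0 (lt_of_lt_of_le (by norm_num) (le_max_right k 3))).2
    have e4 : ((pr u' W c0 0 : ℕ) : ℝ) * m ≤ B * m :=
      mul_le_mul_of_nonneg_right (by exact_mod_cast e3) (Nat.cast_nonneg m)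
    push_cast at e2
    linarith
  have hmpos : (0 : ℝ) < m := by exact_mod_cast h5
  have hlm : Real.log Z' ≤ 2 * Real.log m := by
    have e1 : (Z' : ℝ) ≤ (m : ℝ) ^ 2 := by
      have e2 : (Z' : ℝ) ^ 2 ≤ 4 * (B : ℝ) ^ 2 * (m : ℝ) ^ 2 := by
        have e3 : (Z' : ℝ) ≤ 2 * (B * m) := by linarith
        calc (Z' : ℝ) ^ 2 ≤ (2 * (B * m)) ^ 2 := pow_le_pow_left₀ hZ'pos.le e3 2
          _ = 4 * (B : ℝ) ^ 2 * (m : ℝ) ^ 2 := by ring
      have e4 : (Z' : ℝ) ^ 2 ≤ Z' * (m : ℝ) ^ 2 :=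
        e2.trans (mul_le_mul_of_nonneg_right g3 (by positivity))
      rw [sq] at e4
      exact le_of_mul_le_mul_left e4 hZ'pos
    calc Real.log Z' ≤ Real.log ((m : ℝ) ^ 2) := Real.log_le_log hZ'pos e1
      _ = 2 * Real.log m := by rw [Real.log_pow]; norm_num
  have hlm1 : (2 : ℝ) ^ C ≤ Real.log m := by linarith
  have h2C : (0 : ℝ) < (2 : ℝ) ^ C := Real.rpow_pos_of_pos (by norm_num) _
  have hlmpos : 0 < Real.log m := lt_of_lt_of_le h2C hlm1
  have hlZ : 0 ≤ Real.log Z' := Real.log_natCast_nonneg _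
  have hcm : Real.log m ≤ Real.log ((c0 * m : ℕ) : ℝ) := by
    refine Real.log_le_log hmpos ?_
    exact_mod_cast Nat.le_mul_of_pos_left m h3
  refine ⟨W, c0 * m, h, h1, h2.trans (Finset.range_subset_range.mpr hDn), ?_, ?_, h7, ?_, ?_⟩
  · exact Nat.mul_pos h3 h5
  · exact Dvd.dvd.mul_left h6 c0
  · calc (h : ℝ) ≤ (Real.log Z') ^ C := h8
      _ ≤ (2 * Real.log m) ^ C := Real.rpow_le_rpow hlZ hlm hC.le
      _ = (2 : ℝ) ^ C * (Real.log m) ^ C := Real.mul_rpow (by norm_num) hlmpos.le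
      _ ≤ Real.log m * (Real.log m) ^ C :=
          mul_le_mul_of_nonneg_right hlm1 (Real.rpow_nonneg hlmpos.le _)
      _ = (Real.log m) ^ (C + 1) := by rw [Real.rpow_add_one hlmpos.ne', mul_comm]
      _ ≤ (Real.log ((c0 * m : ℕ) : ℝ)) ^ (C + 1) :=
          Real.rpow_le_rpow hlmpos.le hcm (by linarith)
  · intro j hj
    have e1 := h9 j (lt_of_lt_of_le hj (le_max_left k 3))
    rw [Finset.mem_filter] at e1
    have e2 : (∏ t ∈ W, u t j) * (c0 * m) + h = pr u' W c0 j * m + h := by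
      rw [pr, Finset.prod_congr rfl fun t _ => (huu t j hj)]
      ring
    rw [e2]
    exact e1.1

end Pool.Agent.Lib.MP_fb5b0b_nt.W
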