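import Pool.Agent.Lib.MP_fb5b0b_nt.W.Spec

/-!
MP_fb5b0b_nt, W/Maj: the majorant (helper69, after SS/Maj of helper23).
-/

set_option autoImplicit false

namespace Pool.Agent.Lib.MP_fb5b0b_nt.W

open Finset
open Pool.Agent.Lib.MP_9f2731_nt.GP
open Pool.Agent.Lib.MP_9f2731_nt.GP.Rel (av Ind pk HLFC Cut CutG)
open Pool.Agent.Lib.MP_9f2731_nt.GP.Asm (eb lfm)
open Pool.Agent.Lib.MP_9f2731_nt.SS (nl Fo dt CorLStmt MomLStmt Wq Rs Scl)

private theorem Maj_const_nonneg (l w : ℕ) (R : ℝ) (hl : 1 ≤ l) (hR : 1 ≤ R) :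
    0 ≤ ((Wp w).totient / (Wp w) : ℝ) * Real.log R * ((2 * (l : ℝ) - 1) / (l : ℝ) ^ 2) := by
  have h1 : (1 : ℝ) ≤ (l : ℝ) := by exact_mod_cast hl
  have h2 : 0 ≤ Real.log R := Real.log_nonneg hR
  have h3 : 0 ≤ 2 * (l : ℝ) - 1 := by linarith
  positivity

private theorem Maj_nu_nonneg (l w : ℕ) (R : ℝ) (n : ℕ) (hl : 1 ≤ l) (hR : 1 ≤ R) :
    0 ≤ nu l w R n := by
  unfold nu
  exact mul_nonneg (Maj_const_nonneg l w R hl hR) (sq_nonneg _)

private theorem Maj_Lam (l : ℕ) (R : ℝ) (n : ℕ) (hR : 1 ≤ R) (hn : n.Prime) (hRn : R < n) :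
    Lam l R n = 1 := by
  unfold Lam
  have h : n.divisors.filter (fun d : ℕ => (d : ℝ) ≤ R) = {1} := by
    ext d
    rw [Finset.mem_filter, Nat.mem_divisors, Finset.mem_singleton]
    constructor
    · rintro ⟨⟨h1, -⟩, h2⟩
      rcases (Nat.dvd_prime hn).1 h1 with h3 | h3
      · exact h3
      · subst h3
        exact absurd h2 (not_le.2 hRn)
    · rintro rfl
      refine ⟨⟨one_dvd n, hn.ne_zero⟩, ?_⟩
      rw [Nat.cast_one]
      exact hR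
  rw [h, Finset.sum_singleton]
  simp

theorem pMaj : S_Maj := by
  intro M w b0 X b N _ κ A hκ hX hA e y
  have hX1 : (1 : ℝ) ≤ (X : ℝ) := by exact_mod_cast hX
  have hR : (1 : ℝ) ≤ (X : ℝ) ^ κ := Real.one_le_rpow hX1 hκ.le
  have hc : 0 ≤ ((Wp w).totient / (Wp w) : ℝ) * Real.log ((X : ℝ) ^ κ) * (3 / 4) := by
    have h2 := Real.log_nonneg hR
    positivity
  by_cases h : N ≤ 4 * y.val ∧ 2 * y.val < N ∧ nl (fo M w b0 e y) b ∈ A
  · have hf : fb M w κ b0 X b A e y =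
        ((Wp w).totient / (Wp w) : ℝ) * Real.log ((X : ℝ) ^ κ) * (3 / 4) := by
      unfold fb
      rw [if_pos h]
    obtain ⟨hp, hlt⟩ := hA _ h.2.2
    have hL := Maj_Lam 2 ((X : ℝ) ^ κ) (nl (fo M w b0 e y) b) hR hp hlt
    rw [hf]
    refine ⟨hc, le_of_eq ?_⟩
    unfold nub nu
    rw [hL, one_pow, mul_one]
    norm_num
  · have hf : fb M w κ b0 X b A e y = 0 := by
      unfold fb
      rw [if_neg h]
    rw [hf]
    exact ⟨le_rfl, Maj_nu_nonneg 2 w _ _ (by norm_num) hR⟩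

end Pool.Agent.Lib.MP_fb5b0b_nt.W
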