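import Pool.Agent.Lib.MP_fb5b0b_nt.W.Spec

/-!
MP_fb5b0b_nt, W, module Pos: positivity of the count by pigeonhole and the density Hales-Jewett theorem.
-/

set_option autoImplicit false

namespace Pool.Agent.Lib.MP_fb5b0b_nt.W

open Finset
open Pool.Agent.Lib.MP_9f2731_nt.GP
open Pool.Agent.Lib.MP_9f2731_nt.GP.Rel (av Ind pk HLFC Cut CutG)
open Pool.Agent.Lib.MP_9f2731_nt.GP.Asm (eb lfm)
open Pool.Agent.Lib.MP_9f2731_nt.SS (nl Fo dt CorLStmt MomLStmt Wq Rs Scl)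

/-- the words with a large value -/
private noncomputable def Pos_E (k n : ℕ) (u : ℕ → ℕ → ℕ) (δ : ℝ) {N : ℕ} (f : ℕ → ZMod N → ℝ)
    (a h : ZMod N) : Finset (Fin n → Fin k) :=
  open Classical in univ.filter fun w => δ / 2 ≤ f (sc u w) ((sc u w : ZMod N) * a + h)

private theorem Pos_card (k n : ℕ) : Fintype.card (Fin n → Fin k) = k ^ n := by
  rw [Fintype.card_fun, Fintype.card_fin, Fintype.card_fin]

/-- the average number of words with a large value -/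
private theorem Pos_avg (k n : ℕ) (u : ℕ → ℕ → ℕ) (δ : ℝ) (hδ : 0 < δ) (N : ℕ) [NeZero N]
    (f : ℕ → ZMod N → ℝ) (hf : ∀ G x, 0 ≤ f G x ∧ f G x ≤ 1)
    (hs : δ * (k : ℝ) ^ n * N ≤ ∑ w : Fin n → Fin k, ∑ x : ZMod N, f (sc u w) x) (a : ZMod N) :
    δ / 2 * (k : ℝ) ^ n * N ≤ ∑ h : ZMod N, ((Pos_E k n u δ f a h).card : ℝ) := by
  classical
  have h1 : ∑ h : ZMod N, ∑ w : Fin n → Fin k, f (sc u w) ((sc u w : ZMod N) * a + h) =
      ∑ w : Fin n → Fin k, ∑ x : ZMod N, f (sc u w) x := by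
    rw [Finset.sum_comm]
    refine Finset.sum_congr rfl fun w _ => ?_
    exact Fintype.sum_equiv (Equiv.addLeft ((sc u w : ZMod N) * a)) _ _ fun h => rfl
  have h2 : ∀ h : ZMod N, ∑ w : Fin n → Fin k, f (sc u w) ((sc u w : ZMod N) * a + h) ≤
      ((Pos_E k n u δ f a h).card : ℝ) + δ / 2 * (k : ℝ) ^ n := by
    intro h
    have h3 : ∀ w ∈ (univ : Finset (Fin n → Fin k)), f (sc u w) ((sc u w : ZMod N) * a + h) ≤
        (if δ / 2 ≤ f (sc u w) ((sc u w : ZMod N) * a + h) then (1 : ℝ) else 0) + δ / 2 := by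
      intro w _
      split_ifs with h4
      · linarith [(hf (sc u w) ((sc u w : ZMod N) * a + h)).2]
      · linarith
    refine (Finset.sum_le_sum h3).trans ?_
    rw [Finset.sum_add_distrib, Finset.sum_const, Finset.card_univ, Pos_card, nsmul_eq_mul]
    have h5 : ∑ w : Fin n → Fin k,
        (if δ / 2 ≤ f (sc u w) ((sc u w : ZMod N) * a + h) then (1 : ℝ) else 0) =
        ((Pos_E k n u δ f a h).card : ℝ) := by
      unfold Pos_E
      rw [Finset.sum_boole]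
    rw [h5]
    push_cast
    linarith
  have h6 := Finset.sum_le_sum fun (h : ZMod N) (_ : h ∈ univ) => h2 h
  rw [h1, Finset.sum_add_distrib, Finset.sum_const, Finset.card_univ, ZMod.card,
    nsmul_eq_mul] at h6
  have h7 := hs.trans h6
  generalize (k : ℝ) ^ n = K at h7 ⊢
  linarith

/-- many h have many words with a large value -/
private theorem Pos_many (k n : ℕ) (hk : 1 ≤ k) (u : ℕ → ℕ → ℕ) (δ : ℝ) (hδ : 0 < δ) (N : ℕ)
    [NeZero N] (f : ℕ → ZMod N → ℝ) (hf : ∀ G x, 0 ≤ f G x ∧ f G x ≤ 1)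
    (hs : δ * (k : ℝ) ^ n * N ≤ ∑ w : Fin n → Fin k, ∑ x : ZMod N, f (sc u w) x) (a : ZMod N) :
    ∃ H : Finset (ZMod N), δ / 4 * N ≤ (H.card : ℝ) ∧
      ∀ h ∈ H, δ / 4 * (k : ℝ) ^ n ≤ ((Pos_E k n u δ f a h).card : ℝ) := by
  classical
  refine ⟨univ.filter fun h => δ / 4 * (k : ℝ) ^ n ≤ ((Pos_E k n u δ f a h).card : ℝ), ?_,
    fun h hh => (mem_filter.1 hh).2⟩
  set H : Finset (ZMod N) :=
    univ.filter fun h => δ / 4 * (k : ℝ) ^ n ≤ ((Pos_E k n u δ f a h).card : ℝ) with hH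
  have hcard : ∀ h, ((Pos_E k n u δ f a h).card : ℝ) ≤ (k : ℝ) ^ n := by
    intro h
    have h1 : (Pos_E k n u δ f a h).card ≤ k ^ n := by
      refine (card_le_univ _).trans ?_
      rw [Pos_card]
    exact_mod_cast h1
  have h4' := Pos_avg k n u δ hδ N f hf hs a
  have hK : (0 : ℝ) < (k : ℝ) ^ n := by
    have : (0 : ℝ) < k := by exact_mod_cast hk
    positivity
  generalize (k : ℝ) ^ n = K at hcard h4' hK hH
  have h2 : ∀ h ∈ (univ : Finset (ZMod N)), ((Pos_E k n u δ f a h).card : ℝ) ≤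
      (if h ∈ H then K else 0) + δ / 4 * K := by
    intro h _
    by_cases hh : h ∈ H
    · rw [if_pos hh]
      have h3 : 0 ≤ δ / 4 * K := by positivity
      linarith [hcard h]
    · rw [if_neg hh]
      have h3 : ¬ δ / 4 * K ≤ ((Pos_E k n u δ f a h).card : ℝ) := fun h4 =>
        hh (by rw [hH]; exact mem_filter.2 ⟨mem_univ _, h4⟩)
      linarith
  have h4 := h4'.trans (Finset.sum_le_sum h2)
  rw [Finset.sum_add_distrib, Finset.sum_const, Finset.card_univ, ZMod.card, nsmul_eq_mul,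
    Finset.sum_ite_mem, Finset.univ_inter, Finset.sum_const, nsmul_eq_mul] at h4
  have h5 : K * (δ / 4 * N) ≤ K * H.card := by nlinarith
  exact le_of_mul_le_mul_left h5 hK

theorem pPos (hD : DhjStmt) (hL : S_Lin) : S_Pos := by
  classical
  intro k u δ hk hu hδ
  obtain ⟨n, hn⟩ := hD k (δ / 4) (by positivity)
  have hL' : ∀ wl : Fin n → Option (Fin k), (∃ t, wl t = none) →
      ∃ (W : Finset ℕ) (c0 : ℕ), W.Nonempty ∧ W ⊆ range n ∧ 1 ≤ c0 ∧
      (∀ (j : ℕ) (hj : j < k), pr u W c0 j = sc u (lineMap wl ⟨j, hj⟩)) ∧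
      ∀ B : ℕ, (∀ w : Fin n → Fin k, sc u w ≤ B) → Cok k B (pr u W c0) :=
    fun wl hwl => hL k n u wl hu hwl
  choose! W c0 hW1 hW2 hW3 hW4 hW5 using hL'
  have hB : ∀ w : Fin n → Fin k, sc u w ≤ 1 + ∑ w : Fin n → Fin k, sc u w := by
    intro w
    have h1 : sc u w ≤ ∑ w : Fin n → Fin k, sc u w :=
      Finset.single_le_sum (f := fun w : Fin n → Fin k => sc u w) (fun _ _ => Nat.zero_le _)
        (mem_univ w)
    omega
  have hK0 : (0 : ℝ) < ((k : ℝ) + 1) ^ n := by positivity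
  refine ⟨n, 1 + ∑ w : Fin n → Fin k, sc u w, by omega, hB,
    δ / 4 * (δ / 2) ^ k / ((k : ℝ) + 1) ^ n, by positivity, ?_⟩
  intro N _ f Q hf hs
  have hN0 : (0 : ℝ) < N := by exact_mod_cast Nat.pos_of_ne_zero (NeZero.ne N)
  set PP : Finset (Fin n → Option (Fin k)) := univ.filter fun wl => ∃ t, wl t = none with hPP
  set T : (Fin n → Option (Fin k)) → ZMod N → ZMod N → ℝ := fun wl a h =>
    ∏ j ∈ range k, f (pr u (W wl) (c0 wl) j) ((pr u (W wl) (c0 wl) j : ZMod N) * a + h) with hT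
  have hT0 : ∀ p a h, 0 ≤ T p a h := fun p a h => Finset.prod_nonneg fun j _ => (hf _ _).1
  -- a line for every good h
  have hprog : ∀ a h : ZMod N, δ / 4 * (k : ℝ) ^ n ≤ ((Pos_E k n u δ f a h).card : ℝ) →
      ∃ p ∈ PP, (δ / 2) ^ k ≤ T p a h := by
    intro a h hh
    obtain ⟨wl, hwl, hE⟩ := hn (Pos_E k n u δ f a h) hh
    refine ⟨wl, mem_filter.2 ⟨mem_univ _, hwl⟩, ?_⟩
    calc (δ / 2) ^ k = ∏ _j ∈ range k, (δ / 2) := by rw [Finset.prod_const, card_range]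
      _ ≤ T wl a h := Finset.prod_le_prod (fun _ _ => by positivity)
          fun j hj => by
            have h1 := (mem_filter.1 (hE ⟨j, mem_range.1 hj⟩)).2
            rw [← hW4 wl hwl j (mem_range.1 hj)] at h1
            exact h1
  -- the sum for one a
  have hone : ∀ a : ZMod N, δ / 4 * N * (δ / 2) ^ k ≤ ∑ h : ZMod N, ∑ p ∈ PP, T p a h := by
    intro a
    obtain ⟨H, hH1, hH2⟩ := Pos_many k n (by omega) u δ hδ N f hf hs a
    calc δ / 4 * N * (δ / 2) ^ k ≤ H.card * (δ / 2) ^ k :=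
          mul_le_mul_of_nonneg_right hH1 (by positivity)
      _ = ∑ _h ∈ H, (δ / 2) ^ k := by rw [Finset.sum_const, nsmul_eq_mul]
      _ ≤ ∑ h ∈ H, ∑ p ∈ PP, T p a h := by
          refine Finset.sum_le_sum fun h hh => ?_
          obtain ⟨p, hp, hle⟩ := hprog a h (hH2 h hh)
          exact hle.trans (Finset.single_le_sum (fun p _ => hT0 p a h) hp)
      _ ≤ ∑ h : ZMod N, ∑ p ∈ PP, T p a h :=
          Finset.sum_le_sum_of_subset_of_nonneg (Finset.subset_univ _)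
            fun h _ _ => Finset.sum_nonneg fun p _ => hT0 p a h
  have hne : PP.Nonempty := by
    obtain ⟨H, hH1, hH2⟩ := Pos_many k n (by omega) u δ hδ N f hf hs 0
    have h1 : (0 : ℝ) < H.card := lt_of_lt_of_le (by positivity) hH1
    have h2 : 0 < H.card := by exact_mod_cast h1
    obtain ⟨h, hh⟩ := Finset.card_pos.1 h2
    obtain ⟨p, hp, _⟩ := hprog 0 h (hH2 h hh)
    exact ⟨p, hp⟩
  have hcard : (PP.card : ℝ) ≤ ((k : ℝ) + 1) ^ n := by
    have h1 : PP.card ≤ (k + 1) ^ n := by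
      refine (card_le_univ _).trans ?_
      rw [Fintype.card_fun, Fintype.card_option, Fintype.card_fin, Fintype.card_fin]
    exact_mod_cast h1
  have htot : ∑ _p ∈ PP, δ / 4 * (δ / 2) ^ k / ((k : ℝ) + 1) ^ n * Q.card * N ≤
      ∑ p ∈ PP, ∑ a ∈ Q, ∑ h : ZMod N, T p a h := by
    have h1 : ∑ p ∈ PP, ∑ a ∈ Q, ∑ h : ZMod N, T p a h =
        ∑ a ∈ Q, ∑ h : ZMod N, ∑ p ∈ PP, T p a h := by
      rw [Finset.sum_comm]
      exact Finset.sum_congr rfl fun a _ => Finset.sum_comm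
    rw [h1, Finset.sum_const, nsmul_eq_mul]
    calc (PP.card : ℝ) * (δ / 4 * (δ / 2) ^ k / ((k : ℝ) + 1) ^ n * Q.card * N)
        ≤ ((k : ℝ) + 1) ^ n * (δ / 4 * (δ / 2) ^ k / ((k : ℝ) + 1) ^ n * Q.card * N) :=
          mul_le_mul_of_nonneg_right hcard (by positivity)
      _ = ∑ _a ∈ Q, δ / 4 * N * (δ / 2) ^ k := by
          rw [Finset.sum_const, nsmul_eq_mul]
          field_simp
      _ ≤ _ := Finset.sum_le_sum fun a _ => hone a
  obtain ⟨p, hp, hle⟩ := Finset.exists_le_of_sum_le hne htot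
  obtain ⟨_, hp1⟩ := mem_filter.1 hp
  exact ⟨W p, c0 p, hW1 p hp1, hW2 p hp1, hW3 p hp1, hW5 p hp1 _ hB, hle⟩

end Pool.Agent.Lib.MP_fb5b0b_nt.W
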