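import Pool.Agent.Lib.MP_fb5b0b_nt.W.Spec

/-!
MP_fb5b0b_nt, W/Pts: from the group `ZMod N` to integers.
-/

set_option autoImplicit false

open Finset

namespace Pool.Agent.Lib.MP_fb5b0b_nt.W

open Pool.Agent.Lib.MP_9f2731_nt.GP
open Pool.Agent.Lib.MP_9f2731_nt.GP.Rel (av Ind pk HLFC Cut CutG)
open Pool.Agent.Lib.MP_9f2731_nt.GP.Asm (eb lfm)
open Pool.Agent.Lib.MP_9f2731_nt.SS (nl Fo dt CorLStmt MomLStmt Wq Rs Scl)

/-- `8 * (G * a) < N` for `G ≤ B`. -/
private theorem Pts_small {B N G a : ℕ} (hG : G ≤ B) (ha : a * (8 * B) < N) :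
    8 * (G * a) < N := by
  have h2 : G * a ≤ B * a := Nat.mul_le_mul_right a hG
  have h3 : a * (8 * B) = 8 * (B * a) := by ring
  omega

theorem pPts : S_Pts := by
  intro B N k _ c a h hk hc ha hy
  obtain ⟨h01, h02⟩ := hy 0 (by omega)
  have hs0 := Pts_small (a := a.val) (hc 0 (by omega)) ha
  set y0 : ℕ := ((c 0 : ZMod N) * a + h).val with hy0
  have hle : c 0 * a.val ≤ y0 := by omega
  have hcast : (((y0 - c 0 * a.val : ℕ)) : ZMod N) = h := by
    rw [Nat.cast_sub hle, Nat.cast_mul, ZMod.natCast_zmod_val, ZMod.natCast_zmod_val]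
    ring
  refine ⟨y0 - c 0 * a.val, by omega, fun j hj => ?_⟩
  have hs := Pts_small (a := a.val) (hc j hj) ha
  have hcc : ((c j * a.val + (y0 - c 0 * a.val) : ℕ) : ZMod N) = (c j : ZMod N) * a + h := by
    rw [Nat.cast_add, hcast, Nat.cast_mul, ZMod.natCast_zmod_val]
  rw [← hcc]
  exact ZMod.val_cast_of_lt (by omega)

end Pool.Agent.Lib.MP_fb5b0b_nt.W
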