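import Pool.Agent.Lib.MP_fb5b0b_nt.W.Spec

/-!
MP_fb5b0b_nt, W, module Sec: second moment of the total mean of the majorant in the windows.
-/

set_option autoImplicit false

open Finset

namespace Pool.Agent.Lib.MP_fb5b0b_nt.W

open Pool.Agent.Lib.MP_9f2731_nt.GP
open Pool.Agent.Lib.MP_9f2731_nt.GP.Rel (av Ind pk HLFC Cut CutG)
open Pool.Agent.Lib.MP_9f2731_nt.GP.Asm (eb lfm)
open Pool.Agent.Lib.MP_9f2731_nt.SS (nl Fo dt CorLStmt MomLStmt Wq Rs Scl)

private theorem Sec_av {G : Type} [Fintype G] (ν ν' : G → ℝ) :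
    av (fun y : G × G => ν' y.2 * ν y.1) = av ν * av ν' := by
  unfold av
  rw [Fintype.sum_prod_type, Fintype.card_prod, Nat.cast_mul, div_mul_div_comm]
  congr 1
  rw [Finset.sum_mul_sum]
  refine Finset.sum_congr rfl fun i _ => Finset.sum_congr rfl fun j _ => ?_
  exact mul_comm _ _

private theorem Sec_swap {G : Type} [Fintype G] (F : G × G → ℝ) :
    av (fun y : G × G => F (y.2, y.1)) = av F := by
  unfold av
  congr 1
  exact Equiv.sum_comp (Equiv.prodComm G G) F

private theorem Sec_eb (X : ℕ) {ι : Type} [Fintype ι] (f : ι → ℕ → ℝ) :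
    eb X (fun b => (∑ e, f e b) ^ 2) = ∑ e, ∑ e', eb X (fun b => f e b * f e' b) := by
  have h1 : ∑ b ∈ Icc 1 X, (∑ e, f e b) ^ 2 =
      ∑ e, ∑ e', ∑ b ∈ Icc 1 X, f e b * f e' b := by
    simp only [sq, Finset.sum_mul_sum]
    rw [Finset.sum_comm]
    exact Finset.sum_congr rfl fun e _ => Finset.sum_comm
  unfold eb
  rw [h1, Finset.sum_div]
  exact Finset.sum_congr rfl fun e _ => Finset.sum_div _ _ _

/-- Module Sec. -/
theorem pSec (hA : S_Avg) : S_Sec := by
  intro J κ C C2 hJ hG B M hM
  obtain ⟨w0, hw0⟩ := hA J κ C C2 hG B M 1 hM one_pos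
  refine ⟨w0, fun w hw => ?_⟩
  obtain ⟨X0, hX0⟩ := hw0 w hw
  refine ⟨X0, fun X hX b0 hb0 N _ hS ι _ s hs => ?_⟩
  have key : ∀ e e' : ι,
      eb X (fun b => av (fun x : ZMod N => nub M w κ b0 X b (s e) x) *
        av (fun x : ZMod N => nub M w κ b0 X b (s e') x)) ≤ 2 := by
    intro e e'
    have h := hX0 X hX b0 hb0 N hS (ZMod N × ZMod N) Bool Finset.univ
      (fun i => if i = true then s e' else s e)
      (fun i y => if i = true then y.2 else y.1) (by simpa using hJ) (by
        intro i _
        rcases i with _ | _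
        · exact hs e
        · exact hs e') (by
        intro i _ i' _ hii F
        rcases i with _ | _ <;> rcases i' with _ | _
        · exact absurd rfl hii
        · rfl
        · exact Sec_swap F
        · exact absurd rfl hii)
    have h2 : ∀ b, av (fun y : ZMod N × ZMod N =>
        ∏ i : Bool, nub M w κ b0 X b (if i = true then s e' else s e)
          (if i = true then y.2 else y.1))
        = av (fun x : ZMod N => nub M w κ b0 X b (s e) x) *
          av (fun x : ZMod N => nub M w κ b0 X b (s e') x) := by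
      intro b
      rw [← Sec_av]
      congr 1
      funext y
      rw [Fintype.prod_bool]
      rfl
    simp only [h2] at h
    have h3 := (abs_le.1 h).2
    linarith
  rw [Sec_eb X fun (e : ι) b => av (fun x : ZMod N => nub M w κ b0 X b (s e) x)]
  calc _ ≤ ∑ _e : ι, ∑ _e' : ι, (2 : ℝ) :=
        Finset.sum_le_sum fun e _ => Finset.sum_le_sum fun e' _ => key e e'
    _ = 2 * (Fintype.card ι : ℝ) ^ 2 := by
        simp only [Finset.sum_const, card_univ, nsmul_eq_mul]
        ring

end Pool.Agent.Lib.MP_fb5b0b_nt.W
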