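import Pool.Agent.Lib.MP_9f2731_nt.SS.All
import Pool.Agent.Lib.MP_fb5b0b_nt.W.Lin
import Pool.Agent.Lib.MP_fb5b0b_nt.W.Pos
import Pool.Agent.Lib.MP_fb5b0b_nt.W.Cut
import Pool.Agent.Lib.MP_fb5b0b_nt.W.Cfg
import Pool.Agent.Lib.MP_fb5b0b_nt.W.Fnl
import Pool.Agent.Lib.MP_fb5b0b_nt.W.Fob
import Pool.Agent.Lib.MP_fb5b0b_nt.W.Gen
import Pool.Agent.Lib.MP_fb5b0b_nt.W.Xav
import Pool.Agent.Lib.MP_fb5b0b_nt.W.Avg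
import Pool.Agent.Lib.MP_fb5b0b_nt.W.Eqd
import Pool.Agent.Lib.MP_fb5b0b_nt.W.Lf1
import Pool.Agent.Lib.MP_fb5b0b_nt.W.Lf2
import Pool.Agent.Lib.MP_fb5b0b_nt.W.Sec
import Pool.Agent.Lib.MP_fb5b0b_nt.W.Maj
import Pool.Agent.Lib.MP_fb5b0b_nt.W.Cnt
import Pool.Agent.Lib.MP_fb5b0b_nt.W.Blk
import Pool.Agent.Lib.MP_fb5b0b_nt.W.Den
import Pool.Agent.Lib.MP_fb5b0b_nt.W.Pts
import Pool.Agent.Lib.MP_fb5b0b_nt.W.Bas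
import Pool.Agent.Lib.MP_fb5b0b_nt.W.Lng

/-!
MP_fb5b0b_nt, THEOREM W without hypotheses (all modules together).
-/

set_option autoImplicit false

namespace Pool.Agent.Lib.MP_fb5b0b_nt.W

open Pool.Agent.Lib.MP_9f2731_nt
open Pool.Agent.Lib.MP_9f2731_nt.GP

/-- the relative counting theorem -/
theorem rc : RcStmt := by
  have aGcs := GP.Rel.pGcs (GP.Rel.pGst (GP.Rel.pCs1 GP.Rel.pUpd))
  have aPr2 := GP.Rel.pPr2 GP.Rel.pUpd GP.Rel.pMrg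
  have aCl := GP.Rel.pCl GP.Rel.pCl0
    (GP.Rel.pCl1 (GP.Rel.pStf aGcs GP.Rel.pAlt) aPr2 (GP.Rel.pVar aPr2 GP.Rel.pMrg))
  have aDmt := GP.Rel.pDmt GP.Rel.pReg GP.Rel.pPhi
    (GP.Rel.pPol GP.Rel.pPhi (GP.Rel.pPml GP.Rel.pPhi))
  have aNuc := GP.Rel.pNuc aGcs GP.Rel.pAlt GP.Rel.pCfm GP.Rel.pMrg
  exact pFnl (pPos GP.Dhj.dhjAll pLin) aCl aDmt aNuc pCut pCfg

/-- the main step -/
theorem bas : BasStmt := by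
  have aAvg := pAvg (pXav pFob GP.Rom.pExp GP.Rom.pTot GP.Rom.pRlg)
  exact pBas rc (pGen SS.corL SS.momL SS.pSng pFob) pFob (pLf1 aAvg GP.Asm.pEqd)
    (pLf2 aAvg pEqd) (pSec aAvg) pMaj (pDen pCnt pBlk) pPts GP.Asm.pSel

/-- THEOREM W -/
theorem all : ResStmt := pLng bas

end Pool.Agent.Lib.MP_fb5b0b_nt.W
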