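import Pool.Agent.Lib.MP_fb5b0b_nt.W.Spec

/-!
MP_fb5b0b_nt, THEOREM W, module Avg: mean value 1 for pairwise independent families.
-/

set_option autoImplicit false

namespace Pool.Agent.Lib.MP_fb5b0b_nt.W

open Finset
open Pool.Agent.Lib.MP_9f2731_nt.GP
open Pool.Agent.Lib.MP_9f2731_nt.GP.Rel (av Ind pk HLFC Cut CutG)
open Pool.Agent.Lib.MP_9f2731_nt.GP.Asm (eb lfm)
open Pool.Agent.Lib.MP_9f2731_nt.SS (nl Fo dt CorLStmt MomLStmt Wq Rs Scl)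

private theorem Avg_pair {N : ℕ} [NeZero N] (F : ZMod N × ZMod N → ℝ) {η : ℝ}
    (h : ∑ u, ∑ v, F (u, v) ≤ η * (N : ℝ) ^ 2) : av F ≤ η := by
  have hN : (0 : ℝ) < N := by exact_mod_cast Nat.pos_of_ne_zero (NeZero.ne N)
  unfold av
  rw [Fintype.sum_prod_type, Fintype.card_prod]
  push_cast
  rw [ZMod.card, div_le_iff₀ (by positivity)]
  calc ∑ u, ∑ v, F (u, v) ≤ η * (N : ℝ) ^ 2 := h
    _ = η * ((N : ℝ) * (N : ℝ)) := by ring

private theorem Avg_diag {N : ℕ} [NeZero N] (q : Prop) [Decidable q] :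
    av (fun p : ZMod N × ZMod N => if q ∧ p.1 = p.2 then (1 : ℝ) else 0) ≤ 1 / (N : ℝ) := by
  have hN : (0 : ℝ) < N := by exact_mod_cast Nat.pos_of_ne_zero (NeZero.ne N)
  refine Avg_pair _ ?_
  have h1 : ∀ u : ZMod N, ∑ v, (if q ∧ u = v then (1 : ℝ) else 0) ≤ 1 := by
    intro u
    have h2 : ∑ v, (if q ∧ u = v then (1 : ℝ) else 0) ≤ ∑ v, (if u = v then (1 : ℝ) else 0) := by
      refine Finset.sum_le_sum fun v _ => ?_
      by_cases h3 : u = v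
      · rw [if_pos h3]
        split_ifs
        · exact le_rfl
        · exact zero_le_one
      · rw [if_neg h3, if_neg (fun h4 => h3 h4.2)]
    refine h2.trans (le_of_eq ?_)
    rw [Finset.sum_ite_eq]
    simp
  show ∑ u : ZMod N, ∑ v, (if q ∧ u = v then (1 : ℝ) else 0) ≤ _
  refine (Finset.sum_le_sum fun u _ => h1 u).trans ?_
  rw [Finset.sum_const, Finset.card_univ, nsmul_eq_mul, mul_one, ZMod.card]
  refine le_of_eq ?_
  field_simp

private theorem Avg_sum {ι : Type} [DecidableEq ι] (I : Finset ι) {J : ℕ} (hI : I.card ≤ J)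
    (g : ι → ι → ℝ) {c : ℝ} (hc : 0 ≤ c) (h : ∀ i ∈ I, ∀ i' ∈ I, i ≠ i' → g i i' ≤ c) :
    ∑ i ∈ I, ∑ i' ∈ I.erase i, g i i' ≤ (J : ℝ) ^ 2 * c := by
  have hJ : (I.card : ℝ) ≤ J := by exact_mod_cast hI
  have h1 : ∀ i ∈ I, ∑ i' ∈ I.erase i, g i i' ≤ J * c := by
    intro i hi
    have h2 : ∑ i' ∈ I.erase i, g i i' ≤ ∑ _i' ∈ I.erase i, c := by
      refine Finset.sum_le_sum fun i' hi' => ?_
      have h3 := Finset.mem_erase.1 hi'
      exact h i hi i' h3.2 (Ne.symm h3.1)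
    rw [Finset.sum_const, nsmul_eq_mul] at h2
    have h4 : ((I.erase i).card : ℝ) ≤ J := by
      have h5 : (I.erase i).card ≤ J := (Finset.card_le_card (Finset.erase_subset i I)).trans hI
      exact_mod_cast h5
    exact h2.trans (mul_le_mul_of_nonneg_right h4 hc)
  have h6 : ∑ i ∈ I, ∑ i' ∈ I.erase i, g i i' ≤ ∑ _i ∈ I, (J : ℝ) * c := Finset.sum_le_sum h1
  rw [Finset.sum_const, nsmul_eq_mul] at h6
  refine h6.trans ?_
  have h7 : (I.card : ℝ) * (J * c) ≤ J * (J * c) :=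
    mul_le_mul_of_nonneg_right hJ (mul_nonneg (Nat.cast_nonneg J) hc)
  refine h7.trans (le_of_eq ?_)
  ring

theorem pAvg (hX : S_Xav) : S_Avg := by
  intro J κ C C2 hG D M θ hM hθ
  obtain ⟨-, -, hC, hC2, hG⟩ := hG
  have hJ0 : (0 : ℝ) ≤ (J : ℝ) ^ 2 := by positivity
  have hden : (0 : ℝ) < 3 * C * (J : ℝ) ^ 2 + 1 := by positivity
  obtain ⟨η, hη⟩ : ∃ η : ℝ, η = θ / (3 * C * (J : ℝ) ^ 2 + 1) := ⟨_, rfl⟩
  have hη0 : 0 < η := by rw [hη]; exact div_pos hθ hden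
  obtain ⟨w1, hw1⟩ := hG D M (θ / 3) hM (by linarith)
  obtain ⟨w2, hw2⟩ := hX D M C η hM hC hη0
  refine ⟨max w1 w2, ?_⟩
  intro w hw
  obtain ⟨X1, hX1⟩ := hw1 w (le_trans (le_max_left _ _) hw)
  obtain ⟨N0, hN0⟩ := hw2 w (le_trans (le_max_right _ _) hw)
  refine ⟨max X1 (Real.exp (max 1 (max (3 * (J : ℝ) ^ 2 / θ) (N0 : ℝ)))), ?_⟩
  intro X hXX b0 hb0 N _ hS Y _ _ ι _ I ε ψ hI hε hind
  obtain ⟨hN, hNL, -⟩ := hS
  have hXX1 : X1 ≤ X := le_trans (le_max_left _ _) hXX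
  have hXe := le_trans (le_max_right _ _) hXX
  have hXpos : (0 : ℝ) < X := lt_of_lt_of_le (Real.exp_pos _) hXe
  have hL : max 1 (max (3 * (J : ℝ) ^ 2 / θ) (N0 : ℝ)) ≤ Real.log X := by
    rw [Real.le_log_iff_exp_le hXpos]
    exact hXe
  have hL1 : 1 ≤ Real.log X := le_trans (le_max_left _ _) hL
  have hL2 : 3 * (J : ℝ) ^ 2 / θ ≤ Real.log X :=
    le_trans (le_trans (le_max_left _ _) (le_max_right _ _)) hL
  have hL3 : (N0 : ℝ) ≤ Real.log X :=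
    le_trans (le_trans (le_max_right _ _) (le_max_right _ _)) hL
  have hL0 : (0 : ℝ) < Real.log X := by linarith
  have hNN0 : N0 ≤ N := by
    have h1 : (Real.log X) ^ (1 : ℝ) ≤ (Real.log X) ^ (C2 + 2) :=
      Real.rpow_le_rpow_of_exponent_le hL1 (by linarith)
    rw [Real.rpow_one] at h1
    exact_mod_cast (hL3.trans h1).trans hNL
  have hNpos : (0 : ℝ) < N := by exact_mod_cast Nat.pos_of_ne_zero (NeZero.ne N)
  have h3 := hX1 X hXX1 b0 hb0 N Y ι I ε ψ hI hε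
  refine h3.trans ?_
  have hS1 : ∑ i ∈ I, ∑ i' ∈ I.erase i,
      av (fun y => Xi C M w b0 (ε i) (ε i') (ψ i y) (ψ i' y)) ≤ (J : ℝ) ^ 2 * η := by
    refine Avg_sum I hI (fun i i' => av (fun y => Xi C M w b0 (ε i) (ε i') (ψ i y) (ψ i' y)))
      hη0.le ?_
    intro i hi i' hi' hii'
    have h4 := hind i hi i' hi' hii' (fun p => Xi C M w b0 (ε i) (ε i') p.1 p.2)
    show av (fun y => Xi C M w b0 (ε i) (ε i') (ψ i y) (ψ i' y)) ≤ η
    have h5 : av (fun y => Xi C M w b0 (ε i) (ε i') (ψ i y) (ψ i' y))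
        = av (fun p : ZMod N × ZMod N => Xi C M w b0 (ε i) (ε i') p.1 p.2) := h4
    rw [h5]
    exact Avg_pair _ (hN0 N hNN0 b0 hb0 (ε i) (ε i') (hε i hi).1 (hε i hi).2 (hε i' hi').1
      (hε i' hi').2)
  have hS2 : ∑ i ∈ I, ∑ i' ∈ I.erase i,
      av (fun y => if ε i = ε i' ∧ ψ i y = ψ i' y then (1 : ℝ) else 0)
      ≤ (J : ℝ) ^ 2 * (1 / (N : ℝ)) := by
    refine Avg_sum I hI
      (fun i i' => av (fun y => if ε i = ε i' ∧ ψ i y = ψ i' y then (1 : ℝ) else 0))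
      (by positivity) ?_
    intro i hi i' hi' hii'
    have h4 := hind i hi i' hi' hii' (fun p => if ε i = ε i' ∧ p.1 = p.2 then (1 : ℝ) else 0)
    show av (fun y => if ε i = ε i' ∧ ψ i y = ψ i' y then (1 : ℝ) else 0) ≤ _
    have h5 : av (fun y => if ε i = ε i' ∧ ψ i y = ψ i' y then (1 : ℝ) else 0)
        = av (fun p : ZMod N × ZMod N => if ε i = ε i' ∧ p.1 = p.2 then (1 : ℝ) else 0) := h4
    rw [h5]
    exact Avg_diag _
  have hA : C * ∑ i ∈ I, ∑ i' ∈ I.erase i,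
      av (fun y => Xi C M w b0 (ε i) (ε i') (ψ i y) (ψ i' y)) ≤ θ / 3 := by
    have h4 : C * ∑ i ∈ I, ∑ i' ∈ I.erase i,
        av (fun y => Xi C M w b0 (ε i) (ε i') (ψ i y) (ψ i' y))
        ≤ C * ((J : ℝ) ^ 2 * η) := mul_le_mul_of_nonneg_left hS1 hC.le
    refine h4.trans ?_
    rw [hη, ← mul_assoc, ← mul_div_assoc, div_le_div_iff₀ hden (by norm_num)]
    nlinarith
  have hB : (Real.log X) ^ C2 * ∑ i ∈ I, ∑ i' ∈ I.erase i,
      av (fun y => if ε i = ε i' ∧ ψ i y = ψ i' y then (1 : ℝ) else 0) ≤ θ / 3 := by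
    have h4 : (Real.log X) ^ C2 * ∑ i ∈ I, ∑ i' ∈ I.erase i,
        av (fun y => if ε i = ε i' ∧ ψ i y = ψ i' y then (1 : ℝ) else 0)
        ≤ (Real.log X) ^ C2 * ((J : ℝ) ^ 2 * (1 / (N : ℝ))) :=
      mul_le_mul_of_nonneg_left hS2 (Real.rpow_nonneg hL0.le _)
    refine h4.trans ?_
    have hLC : 0 < (Real.log X) ^ C2 := Real.rpow_pos_of_pos hL0 _
    have h5 : (Real.log X) ^ (C2 + 2) = (Real.log X) ^ C2 * (Real.log X) ^ 2 := by
      rw [Real.rpow_add hL0]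
      norm_num
    rw [h5] at hNL
    have h6 : 1 / (N : ℝ) ≤ 1 / ((Real.log X) ^ C2 * (Real.log X) ^ 2) :=
      one_div_le_one_div_of_le (by positivity) hNL
    have h7 : (Real.log X) ^ C2 * ((J : ℝ) ^ 2 * (1 / (N : ℝ)))
        ≤ (Real.log X) ^ C2 * ((J : ℝ) ^ 2 * (1 / ((Real.log X) ^ C2 * (Real.log X) ^ 2))) :=
      mul_le_mul_of_nonneg_left (mul_le_mul_of_nonneg_left h6 hJ0) hLC.le
    refine h7.trans ?_
    have h8 : (Real.log X) ^ C2 * ((J : ℝ) ^ 2 * (1 / ((Real.log X) ^ C2 * (Real.log X) ^ 2)))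
        = (J : ℝ) ^ 2 / (Real.log X) ^ 2 := by
      field_simp
    rw [h8, div_le_div_iff₀ (by positivity) (by norm_num)]
    have h9 : 3 * (J : ℝ) ^ 2 ≤ Real.log X * θ := by
      rwa [div_le_iff₀ hθ] at hL2
    nlinarith [mul_pos hL0 hθ]
  linarith

end Pool.Agent.Lib.MP_fb5b0b_nt.W
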