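import Pool.Agent.Lib.MP_fb5b0b_nt.W.Spec

/-!
MP_fb5b0b_nt, W, module Bas (adapted from SS/Bas): the main step.
-/

set_option autoImplicit false

open Finset

namespace Pool.Agent.Lib.MP_fb5b0b_nt.W

open Pool.Agent.Lib.MP_9f2731_nt.GP
open Pool.Agent.Lib.MP_9f2731_nt.GP.Rel (av Ind pk HLFC Cut CutG)
open Pool.Agent.Lib.MP_9f2731_nt.GP.Asm (eb lfm)
open Pool.Agent.Lib.MP_9f2731_nt.SS (nl Fo dt CorLStmt MomLStmt Wq Rs Scl)

private theorem Bas_mono {α : Type} [Fintype α] (f g : α → ℝ) (h : ∀ x, f x ≤ g x) :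
    av f ≤ av g := by
  unfold Pool.Agent.Lib.MP_9f2731_nt.GP.Rel.av
  exact div_le_div_of_nonneg_right (sum_le_sum fun x _ => h x) (Nat.cast_nonneg _)

private theorem Bas_nonneg {α : Type} [Fintype α] (f : α → ℝ) (h : ∀ x, 0 ≤ f x) : 0 ≤ av f := by
  unfold Pool.Agent.Lib.MP_9f2731_nt.GP.Rel.av
  exact div_nonneg (sum_nonneg fun x _ => h x) (Nat.cast_nonneg _)

private theorem Bas_ebdiv (X : ℕ) (f : ℕ → ℝ) (c : ℝ) : eb X (fun b => f b / c) = eb X f / c := by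
  unfold Pool.Agent.Lib.MP_9f2731_nt.GP.Asm.eb
  rw [← Finset.sum_div, div_right_comm]

open Classical in
/-- selection of a good `b` -/
private theorem Bas_select (hS : Pool.Agent.Lib.MP_9f2731_nt.GP.Asm.SelStmt) (X : ℕ) (hX : 1 ≤ X) {ι : Type} (I : Finset ι)
    (F V : ℕ → ℝ) (g : ι → ℕ → ℝ) (δ η2 θ : ℝ) (hδ : 0 < δ) (hη2 : 0 < η2)
    (hFV : ∀ b, 0 ≤ F b ∧ F b ≤ V b) (h2 : 2 * δ ≤ eb X F) (h3 : eb X (fun b => V b ^ 2) ≤ 2)
    (hg0 : ∀ i ∈ I, ∀ b, 0 ≤ g i b) (hg : ∀ i ∈ I, eb X (g i) ≤ θ)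
    (hn : (I.card : ℝ) * θ / η2 ≤ δ ^ 2 / 8) :
    ∃ b : ℕ, 1 ≤ b ∧ δ ≤ F b ∧ ∀ i ∈ I, g i b ≤ η2 := by
  have hX0 : (0 : ℝ) < X := Nat.cast_pos.2 (by omega)
  have c1 : δ ^ 2 / 2 * X ≤ (((Icc 1 X).filter (fun b => δ ≤ F b)).card : ℝ) := by
    refine le_trans (hS.1 X F V δ hX hδ hFV h2 h3) (le_of_eq ?_)
    congr 2
  have c2 : ∀ i ∈ I, (((Icc 1 X).filter (fun b => η2 < g i b)).card : ℝ) ≤ X * θ / η2 := by
    intro i hi
    have h := hS.2 X (g i) η2 hX hη2 (hg0 i hi)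
    have h' : (X : ℝ) * eb X (g i) / η2 ≤ X * θ / η2 :=
      div_le_div_of_nonneg_right (mul_le_mul_of_nonneg_left (hg i hi) hX0.le) hη2.le
    refine le_trans (le_of_eq ?_) (h.trans h')
    congr 2
  by_contra hcon
  push Not at hcon
  have hsub : (Icc 1 X).filter (fun b => δ ≤ F b) ⊆
      I.biUnion fun i => (Icc 1 X).filter (fun b => η2 < g i b) := by
    intro b hb
    rw [mem_filter] at hb
    obtain ⟨i, hi, hgi⟩ := hcon b (mem_Icc.1 hb.1).1 hb.2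
    exact mem_biUnion.2 ⟨i, hi, mem_filter.2 ⟨hb.1, hgi⟩⟩
  have h7 : (((Icc 1 X).filter (fun b => δ ≤ F b)).card : ℝ) ≤
      ((I.biUnion fun i => (Icc 1 X).filter (fun b => η2 < g i b)).card : ℝ) := by
    exact_mod_cast card_le_card hsub
  have h9 : ((I.biUnion fun i => (Icc 1 X).filter (fun b => η2 < g i b)).card : ℝ) ≤
      ∑ i ∈ I, (((Icc 1 X).filter (fun b => η2 < g i b)).card : ℝ) := by
    exact_mod_cast card_biUnion_le
  have h10 : ∑ i ∈ I, (((Icc 1 X).filter (fun b => η2 < g i b)).card : ℝ) ≤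
      ∑ _i ∈ I, X * θ / η2 := sum_le_sum c2
  rw [sum_const, nsmul_eq_mul] at h10
  have h11 : (I.card : ℝ) * (X * θ / η2) = X * (I.card * θ / η2) := by ring
  rw [h11] at h10
  have h12 := mul_le_mul_of_nonneg_left hn hX0.le
  have h13 : 0 < δ ^ 2 * X := by positivity
  linarith

/-- large parameters -/
private theorem Bas_large (C2 : ℝ) (hC2 : 0 < C2) (Q : ℕ) (hQ : 3 ≤ Q) (N0 : ℕ) (X0 : ℝ) :
    ∃ Z0 : ℕ, ∀ Z : ℕ, Z0 ≤ Z → X0 ≤ ((2 * Z / Q + 1 : ℕ) : ℝ) ∧ 2 * Z / Q + 1 ≤ Z ∧ ∃ N : ℕ,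
      Scl (C2 + 2) (2 * Z / Q + 1) N ∧ N0 ≤ N ∧ Q * (2 * N) ≤ Z ∧
        ((Q * N : ℕ) : ℝ) ≤ (Real.log Z) ^ (C2 + 4) := by
  have hlog : Filter.Tendsto (fun X : ℕ => Real.log (X : ℝ)) Filter.atTop Filter.atTop :=
    Real.tendsto_log_atTop.comp (tendsto_natCast_atTop_atTop (R := ℝ))
  have t1 := ((tendsto_rpow_atTop (show 0 < C2 + 2 by linarith)).comp hlog).eventually
    (Filter.eventually_ge_atTop (max (N0 : ℝ) 1))
  rw [Filter.eventually_atTop] at t1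
  obtain ⟨X1, hX1⟩ := t1
  have t2 := ((isLittleO_log_rpow_rpow_atTop (C2 + 2) (one_pos : (0 : ℝ) < 1)).bound
    (show (0 : ℝ) < 1 / (8 * Q) by positivity))
  have t2' := (tendsto_natCast_atTop_atTop (R := ℝ)).eventually t2
  have t3 := hlog.eventually (Filter.eventually_ge_atTop (4 * (Q : ℝ)))
  have t := (t2'.and t3).and (Filter.eventually_ge_atTop
    (max 3 (Q * (max X1 ⌈X0⌉₊))))
  rw [Filter.eventually_atTop] at t
  obtain ⟨Z0, hZ0⟩ := t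
  refine ⟨Z0, fun Z hZ => ?_⟩
  obtain ⟨⟨c2, c3⟩, c4⟩ := hZ0 Z hZ
  have hZ3 : 3 ≤ Z := (le_max_left _ _).trans c4
  have hZQ : Q * max X1 ⌈X0⌉₊ ≤ Z := (le_max_right _ _).trans c4
  obtain ⟨X, hX⟩ : ∃ X : ℕ, X = 2 * Z / Q + 1 := ⟨_, rfl⟩
  have hXge : max X1 ⌈X0⌉₊ ≤ X := by
    rw [hX]
    have h1 : max X1 ⌈X0⌉₊ ≤ 2 * Z / Q := by
      rw [Nat.le_div_iff_mul_le (by omega), mul_comm]
      omega
    omega
  have hXle : X ≤ Z := by
    rw [hX]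
    have h1 : 2 * Z / Q ≤ 2 * Z / 3 := Nat.div_le_div_left hQ (by omega)
    omega
  rw [← hX]
  have hXX1 : X1 ≤ X := (le_max_left _ _).trans hXge
  have hXX0 : X0 ≤ (X : ℝ) := by
    have h1 : ⌈X0⌉₊ ≤ X := (le_max_right _ _).trans hXge
    exact (Nat.le_ceil X0).trans (by exact_mod_cast h1)
  have h5 := hX1 X hXX1
  simp only [Function.comp_apply] at h5
  obtain ⟨L, hL⟩ : ∃ L : ℝ, L = (Real.log (X : ℝ)) ^ (C2 + 2) := ⟨_, rfl⟩
  rw [← hL] at h5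
  have hL1 : 1 ≤ L := (le_max_right _ _).trans h5
  have hLN : (N0 : ℝ) ≤ L := (le_max_left _ _).trans h5
  have hn0 : ⌈L⌉₊ ≠ 0 := by
    have := Nat.le_ceil L
    intro h
    rw [h, Nat.cast_zero] at this
    linarith
  obtain ⟨N, hN, hN1, hN2⟩ := Nat.exists_prime_lt_and_le_two_mul ⌈L⌉₊ hn0
  have hNL : L ≤ N := (Nat.le_ceil L).trans (by exact_mod_cast hN1.le)
  have hNU : (N : ℝ) ≤ 4 * L := by
    have h6 : (N : ℝ) ≤ 2 * ⌈L⌉₊ := by exact_mod_cast hN2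
    have h7 := (Nat.ceil_lt_add_one (show 0 ≤ L by linarith)).le
    linarith
  have hXpos : (0 : ℝ) < X := by
    have : 1 ≤ X := by rw [hX]; exact Nat.le_add_left 1 _
    exact_mod_cast this
  have hlogX0 : 0 ≤ Real.log (X : ℝ) := Real.log_natCast_nonneg X
  have hlogXZ : Real.log (X : ℝ) ≤ Real.log (Z : ℝ) :=
    Real.log_le_log hXpos (by exact_mod_cast hXle)
  have hLZ : L ≤ (Real.log (Z : ℝ)) ^ (C2 + 2) := by
    rw [hL]
    exact Real.rpow_le_rpow hlogX0 hlogXZ (by linarith)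
  have hlogZ0 : 0 ≤ Real.log (Z : ℝ) := hlogX0.trans hlogXZ
  have hQ0 : (0 : ℝ) < Q := Nat.cast_pos.2 (by omega)
  rw [Real.rpow_one, Real.norm_of_nonneg (Real.rpow_nonneg hlogZ0 _),
    Real.norm_of_nonneg (Nat.cast_nonneg Z)] at c2
  have hZ8 : 8 * Q * (Real.log (Z : ℝ)) ^ (C2 + 2) ≤ Z := by
    have h8 : (1 / (8 * (Q : ℝ))) * Z = Z / (8 * Q) := by ring
    rw [h8, le_div_iff₀ (by positivity)] at c2
    linarith
  refine ⟨hXX0, hXle, N, ⟨hN, ?_, ?_⟩, ?_, ?_, ?_⟩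
  · rw [← hL]
    exact hNL
  · rw [← hL]
    exact hNU
  · have h9 : (N0 : ℝ) ≤ N := hLN.trans hNL
    exact_mod_cast h9
  · have h10 : (Q : ℝ) * (2 * N) ≤ Z := by
      have h11 : (Q : ℝ) * (2 * N) ≤ Q * (2 * (4 * (Real.log (Z : ℝ)) ^ (C2 + 2))) := by
        refine mul_le_mul_of_nonneg_left ?_ hQ0.le
        linarith
      linarith
    exact_mod_cast h10
  · have hQ1 : (3 : ℝ) ≤ Q := by exact_mod_cast hQ
    have hlogZ1 : 0 < Real.log (Z : ℝ) := by linarith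
    have h12 : (Real.log (Z : ℝ)) ^ (C2 + 4) =
        (Real.log (Z : ℝ)) ^ 2 * (Real.log (Z : ℝ)) ^ (C2 + 2) := by
      rw [← Real.rpow_natCast, ← Real.rpow_add hlogZ1]
      congr 1
      push_cast
      ring
    have h13 : 4 * (Q : ℝ) ≤ (Real.log (Z : ℝ)) ^ 2 := by nlinarith
    rw [h12, Nat.cast_mul]
    calc (Q : ℝ) * N ≤ Q * (4 * (Real.log (Z : ℝ)) ^ (C2 + 2)) :=
          mul_le_mul_of_nonneg_left (by linarith) hQ0.le
      _ = 4 * Q * (Real.log (Z : ℝ)) ^ (C2 + 2) := by ring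
      _ ≤ (Real.log (Z : ℝ)) ^ 2 * (Real.log (Z : ℝ)) ^ (C2 + 2) :=
          mul_le_mul_of_nonneg_right h13 (Real.rpow_nonneg hlogZ0 _)

open Classical in
private theorem Bas_fb {M w b0 X b N G : ℕ} {κ : ℝ} {A : Finset ℕ} {y : ZMod N}
    (h : 0 < fb M w κ b0 X b A G y) :
    N ≤ 4 * y.val ∧ 2 * y.val < N ∧ nl (fo M w b0 G y) b ∈ A := by
  by_contra hcon
  unfold fb at h
  rw [if_neg hcon] at h
  exact lt_irrefl _ h

/-- the sequence of scales of a function on `Fin k` -/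
private def Bas_cc {k B : ℕ} (e : Fin k → Fin (B + 1)) (j : ℕ) : ℕ :=
  if h : j < k then (e ⟨j, h⟩ : ℕ) else 0

/-- `gW` depends only on the first `k` scales -/
private theorem Bas_gW {k N : ℕ} (f : ℕ → ZMod N → ℝ) (q : ZMod N → ℝ) (c c' : ℕ → ℕ)
    (h : ∀ j, j < k → c j = c' j) : gW k f q c = gW k f q c' := by
  funext j x
  unfold gW
  by_cases hj : (j : ℕ) < k
  · rw [if_pos hj, if_pos hj, h _ hj]
    congr 1
    unfold Lf
    congr 1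
    refine Finset.sum_congr rfl fun l _ => ?_
    rw [h _ hj, h _ l.2]
  · rw [if_neg hj, if_neg hj]

/-- every sequence of scales agrees below `k` with one of finitely many -/
private theorem Bas_ex {k B : ℕ} (c : ℕ → ℕ) (hc : Cok k B c) :
    ∃ e : Fin k → Fin (B + 1), (∀ j, j < k → c j = Bas_cc e j) ∧ Cok k B (Bas_cc e) := by
  have h1 : ∀ j : Fin k, c j < B + 1 := fun j => Nat.lt_succ_of_le (hc.1 j j.2).2
  have h2 : ∀ j, j < k → c j = Bas_cc (fun j : Fin k => (⟨c j, h1 j⟩ : Fin (B + 1))) j := by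
    intro j hj
    unfold Bas_cc
    rw [dif_pos hj]
  refine ⟨fun j => ⟨c j, h1 j⟩, h2, fun j hj => ?_, fun i j hi hj hij => ?_⟩
  · rw [← h2 j hj]
    exact hc.1 j hj
  · rw [← h2 i hi, ← h2 j hj]
    exact hc.2 i j hi hj hij

/-- the scales are positive -/
private theorem Bas_sc {k n : ℕ} (u : ℕ → ℕ → ℕ) (hu : Mul k u) (w : Fin n → Fin k) :
    1 ≤ sc u w := by
  have h : 0 < ∏ t : Fin n, u (t : ℕ) (w t : ℕ) := by
    apply Finset.prod_pos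
    intro t _
    exact hu.1 (t : ℕ) (w t : ℕ) (w t).2
  exact h

theorem pBas (hR : RcStmt) (hG : S_Gen) (hF : S_Fob) (h1 : S_Lf1) (h2 : S_Lf2) (hS : S_Sec)
    (hM : S_Maj) (hD : S_Den) (hP : S_Pts) (hSel : Pool.Agent.Lib.MP_9f2731_nt.GP.Asm.SelStmt) :
    S_Bas := by
  classical
  intro k hk
  have h2k : 1 ≤ 2 ^ (k + 1) := Nat.one_le_two_pow
  obtain ⟨J, hJ⟩ : ∃ J : ℕ, J = 2 * ((k + 1) * 2 ^ (k + 1)) := ⟨_, rfl⟩
  have hJ2 : 2 ≤ J := by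
    rw [hJ]
    have : 1 ≤ (k + 1) * 2 ^ (k + 1) := Nat.mul_pos (by omega) (by omega)
    omega
  obtain ⟨κ, C, C2, hGen⟩ := hG J (by omega)
  have hκ0 : 0 < κ := hGen.1
  have hκ1 : κ < 1 := hGen.2.1
  have hC2 : 0 < C2 := hGen.2.2.2.1
  refine ⟨C2 + 4, by linarith, fun u hu δ hδ => ?_⟩
  obtain ⟨δ1, hδ1⟩ : ∃ δ1 : ℝ, δ1 = κ * δ / 200 := ⟨_, rfl⟩
  have hδ10 : 0 < δ1 := by rw [hδ1]; positivity
  obtain ⟨n, B, hB1, hscB, η, N0, hη, hRc⟩ := hR k u δ1 (by omega) hu hδ10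
  refine ⟨n, B, hB1, hscB, fun M hM1 => ?_⟩
  have hsc : ∀ i : Fin n → Fin k, 1 ≤ sc u i ∧ sc u i ≤ B := fun i => ⟨Bas_sc u hu i, hscB i⟩
  have hcard : Fintype.card (Fin n → Fin k) = k ^ n := by simp
  obtain ⟨D, hD'⟩ : ∃ D : ℝ, D = (Fintype.card (Fin n → Fin k) : ℝ) := ⟨_, rfl⟩
  have hDk : D = (k : ℝ) ^ n := by
    rw [hD', hcard]
    push_cast
    rfl
  have hDR : 0 < D := by
    rw [hDk]
    have : (0 : ℝ) < k := Nat.cast_pos.2 (by omega)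
    positivity
  -- the conditions
  obtain ⟨SS, hSS⟩ : ∃ SS : Finset (Finset (Fin (k + 1) × (Fin (k + 1) → Bool))),
      ∀ S, S ∈ SS ↔ ∀ p ∈ S, p.2 p.1 = false :=
    ⟨univ.filter (fun S => ∀ p ∈ S, p.2 p.1 = false), fun S => by
      rw [mem_filter]
      exact ⟨fun h => h.2, fun h => ⟨mem_univ _, h⟩⟩⟩
  obtain ⟨I, hI⟩ : ∃ I : Finset ((ℕ × Finset (Fin (k + 1) × (Fin (k + 1) → Bool))) ⊕
      ((Fin k → Fin (B + 1)) × Finset (Fin (k + 1) × (Fin (k + 1) → Bool)))),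
      I = (Icc 1 B ×ˢ SS).disjSum ((univ.filter
        (fun e : Fin k → Fin (B + 1) => Cok k B (Bas_cc e))) ×ˢ SS) := ⟨_, rfl⟩
  have hI1 : ∀ G S, Sum.inl (G, S) ∈ I ↔ (1 ≤ G ∧ G ≤ B) ∧ S ∈ SS := by
    intro G S
    rw [hI, inl_mem_disjSum, mem_product, mem_Icc]
  have hI2 : ∀ e S, Sum.inr (e, S) ∈ I ↔ Cok k B (Bas_cc e) ∧ S ∈ SS := by
    intro e S
    rw [hI, inr_mem_disjSum, mem_product, mem_filter]
    exact ⟨fun h => ⟨h.1.2, h.2⟩, fun h => ⟨⟨mem_univ _, h.1⟩, h.2⟩⟩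
  obtain ⟨θ, hθ, hθ1⟩ : ∃ θ : ℝ, 0 < θ ∧ (I.card : ℝ) * θ / η ^ 2 ≤ δ1 ^ 2 / 8 := by
    refine ⟨η ^ 2 * δ1 ^ 2 / (8 * (I.card + 1)), by positivity, ?_⟩
    rw [div_le_iff₀ (by positivity)]
    have hs : (0 : ℝ) ≤ I.card := Nat.cast_nonneg _
    rw [← mul_div_assoc, div_le_iff₀ (by positivity)]
    have hp : 0 ≤ η ^ 2 * δ1 ^ 2 := by positivity
    nlinarith
  obtain ⟨w1, hw1⟩ := h1 k J κ C C2 (by omega) hJ.ge hGen B M θ hM1 hθ
  obtain ⟨w2, hw2⟩ := h2 k J κ C C2 (by omega) hJ.ge hGen B M θ hM1 hθ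
  obtain ⟨w3, hw3⟩ := hS J κ C C2 hJ2 hGen B M hM1
  obtain ⟨w4, hw4⟩ := hF.1 3
  obtain ⟨w, hwM, hwa, hwb, hwc, hwd, hwe⟩ : ∃ w : ℕ, M ≤ w ∧ 2 ≤ w ∧ w1 ≤ w ∧ w2 ≤ w ∧
      w3 ≤ w ∧ w4 ≤ w :=
    ⟨M + 2 + w1 + w2 + w3 + w4, by omega, by omega, by omega, by omega, by omega, by omega⟩
  obtain ⟨Q, hQ⟩ : ∃ Q : ℕ, Q = Wq M w := ⟨_, rfl⟩
  have hQ3 : 3 ≤ Q := by
    rw [hQ]
    have h3 := hw4 w hwe
    have h4 : Wp w ≤ M * Wp w := Nat.le_mul_of_pos_left _ hM1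
    exact h3.le.trans h4
  obtain ⟨X1, hX1⟩ := hw1 w hwb
  obtain ⟨X2, hX2⟩ := hw2 w hwc
  obtain ⟨X3, hX3⟩ := hw3 w hwd
  obtain ⟨Z1, hZ1⟩ := hD B M w κ δ hκ0 hδ hB1 hM1 hwM hwa
  obtain ⟨Z2, hZ2⟩ := Bas_large C2 hC2 Q hQ3 (max N0 (32 * B)) (max X1 (max X2 X3))
  refine ⟨max Z1 Z2, fun Z hZ A hA => ?_⟩
  obtain ⟨b0, hb0, hden⟩ := hZ1 Z ((le_max_left _ _).trans hZ) (Fin n → Fin k)
    (fun i => sc u i) A hsc hA
  obtain ⟨hX0, hXZ, N, hScl, hN0, hQN, hQNL⟩ := hZ2 Z ((le_max_right _ _).trans hZ)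
  rw [← hQ, ← hD'] at hden
  obtain ⟨X, hX⟩ : ∃ X : ℕ, X = 2 * Z / Q + 1 := ⟨_, rfl⟩
  rw [← hX] at hden hX0 hXZ hScl
  have hXp : 1 ≤ X := by rw [hX]; exact Nat.le_add_left 1 _
  have hXR : (1 : ℝ) ≤ X := by exact_mod_cast hXp
  rw [max_le_iff, max_le_iff] at hX0
  obtain ⟨a1, a2, a3⟩ := hX0
  have hNp : N.Prime := hScl.1
  have : NeZero N := ⟨hNp.ne_zero⟩
  have hNR : (0 : ℝ) < N := Nat.cast_pos.2 hNp.pos
  have hden := hden N ((le_max_right _ _).trans hN0) hQN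
  have hAX : ∀ p ∈ A, p.Prime ∧ (X : ℝ) ^ κ < p := by
    intro p hp
    obtain ⟨p1, p2, -⟩ := hA.1 p hp
    refine ⟨p1, ?_⟩
    have h5 : (X : ℝ) ^ κ ≤ (X : ℝ) ^ (1 : ℝ) := Real.rpow_le_rpow_of_exponent_le hXR hκ1.le
    rw [Real.rpow_one] at h5
    have h6 : (X : ℝ) < p := by exact_mod_cast lt_of_le_of_lt hXZ p2
    linarith
  have hmaj := fun b G (y : ZMod N) => hM M w b0 X b N κ A hκ0 hXp hAX G y
  obtain ⟨b, hb1, hFb, hgb⟩ := Bas_select hSel X hXp I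
    (fun b => (∑ i : Fin n → Fin k, av (fun x : ZMod N => fb M w κ b0 X b A (sc u i) x)) / D)
    (fun b => (∑ i : Fin n → Fin k, av (fun x : ZMod N => nub M w κ b0 X b (sc u i) x)) / D)
    (fun i b => match i with
      | Sum.inl p => (lfm (k + 1) p.2 (fun x : ZMod N => nub M w κ b0 X b p.1 x) - 1) ^ 2
      | Sum.inr p => (av (fun x : Fin (k + 1) × Bool → ZMod N => ∏ r ∈ p.2,
          gW k (fun G (y : ZMod N) => nub M w κ b0 X b G y) (fun _ => 1) (Bas_cc p.1) r.1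
            (pk r.2 x)) - 1) ^ 2)
    δ1 (η ^ 2) θ hδ10 (by positivity)
    (fun b => ⟨div_nonneg (sum_nonneg fun i _ => Bas_nonneg _ fun x => (hmaj b _ x).1) hDR.le,
      div_le_div_of_nonneg_right (sum_le_sum fun i _ => Bas_mono _ _ fun x => (hmaj b _ x).2)
        hDR.le⟩)
    (by
      rw [Bas_ebdiv, le_div_iff₀ hDR]
      refine le_trans (le_of_eq ?_) hden
      rw [hδ1]
      ring)
    (by
      simp only [div_pow]
      rw [Bas_ebdiv, div_le_iff₀ (by positivity)]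
      have h7 := hX3 X a3 b0 hb0 N hScl (Fin n → Fin k) (fun i => sc u i) hsc
      rw [← hD'] at h7
      exact h7)
    (by
      rintro (i | i) - b
      · exact sq_nonneg _
      · exact sq_nonneg _)
    (by
      rintro (⟨G, S⟩ | ⟨e, S⟩) hi
      · obtain ⟨⟨i0, i1⟩, i2⟩ := (hI1 G S).1 hi
        exact hX1 X a1 b0 hb0 N hScl G i0 i1 S ((hSS S).1 i2)
      · obtain ⟨i1, i3⟩ := (hI2 e S).1 hi
        exact hX2 X a2 b0 hb0 N hScl (Bas_cc e) i1 S ((hSS S).1 i3))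
    hθ1
  -- the relative counting theorem
  have hLFC : ∀ G, 1 ≤ G → G ≤ B → LFC (k + 1) η (fun x : ZMod N => nub M w κ b0 X b G x) := by
    intro G hG1 hG2 S hS'
    exact abs_le_of_sq_le_sq (hgb (Sum.inl (G, S)) ((hI1 G S).2 ⟨⟨hG1, hG2⟩, (hSS S).2 hS'⟩)) hη.le
  have hHLFC : ∀ c : ℕ → ℕ, Cok k B c →
      HLFC η (gW k (fun G (y : ZMod N) => nub M w κ b0 X b G y) (fun _ => 1) c) := by
    intro c hc
    obtain ⟨e, he1, he2⟩ := Bas_ex c hc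
    rw [Bas_gW _ _ c (Bas_cc e) he1]
    intro S hS'
    exact abs_le_of_sq_le_sq (hgb (Sum.inr (e, S)) ((hI2 e S).2 ⟨he2, (hSS S).2 hS'⟩)) hη.le
  have hsum : δ1 * (k : ℝ) ^ n * N ≤
      ∑ i : Fin n → Fin k, ∑ x : ZMod N, fb M w κ b0 X b A (sc u i) x := by
    have h10 : δ1 ≤ (∑ i : Fin n → Fin k, av (fun x : ZMod N => fb M w κ b0 X b A (sc u i) x)) / D :=
      hFb
    have h11 : ∑ i : Fin n → Fin k, av (fun x : ZMod N => fb M w κ b0 X b A (sc u i) x) =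
        (∑ i : Fin n → Fin k, ∑ x : ZMod N, fb M w κ b0 X b A (sc u i) x) / N := by
      rw [Finset.sum_div]
      refine Finset.sum_congr rfl fun i _ => ?_
      unfold Pool.Agent.Lib.MP_9f2731_nt.GP.Rel.av
      rw [ZMod.card]
    rw [le_div_iff₀ hDR, h11, le_div_iff₀ hNR, hDk] at h10
    exact h10
  obtain ⟨W, c0, hW1, hW2, hc0, hCok, a, h, ha1, ha2, hpos⟩ := hRc N hNp
    ((le_max_left _ _).trans hN0)
    (fun G (y : ZMod N) => nub M w κ b0 X b G y) (fun G (y : ZMod N) => fb M w κ b0 X b A G y)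
    (fun G x => ⟨(hmaj b G x).1, (hmaj b G x).2⟩) hLFC hHLFC hsum
  obtain ⟨h', hh', hval⟩ := hP B N k (pr u W c0) a h (by omega) (fun j hj => (hCok.1 j hj).2) ha2
    fun j hj => ⟨(Bas_fb (hpos j hj)).1, (Bas_fb (hpos j hj)).2.1⟩
  refine ⟨W, c0, Q * (b + a.val), Q * h' + b0, hW1, hW2, hc0, hCok,
    Nat.mul_pos (by omega) (by omega), ?_, ?_, ?_, fun j hj => ?_⟩
  · rw [hQ]
    exact (Dvd.intro _ rfl : M ∣ M * Wp w).mul_right _
  · have := hb0.1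
    omega
  · refine le_trans ?_ hQNL
    have h12 : Q * h' + b0 ≤ Q * N := by
      have h13 : b0 < Q := by rw [hQ]; exact hb0.2.1
      have h14 : Q * (h' + 1) ≤ Q * N := Nat.mul_le_mul_left Q hh'
      rw [Nat.mul_add, Nat.mul_one] at h14
      omega
    exact_mod_cast h12
  · have h15 := (Bas_fb (hpos j hj)).2.2
    unfold nl fo at h15
    rw [hval j hj, ← hQ] at h15
    have h16 : pr u W c0 j * (Q * (b + a.val)) + (Q * h' + b0) =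
        Q * pr u W c0 j * b + (Q * (pr u W c0 j * a.val + h') + b0) := by ring
    rw [h16]
    exact h15

end Pool.Agent.Lib.MP_fb5b0b_nt.W
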