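import Pool.Agent.Lib.MP_9f2731_nt.SS.Defs

/-!
MP_fb5b0b_nt, directory W (architect helper93): k primes `r_j m + h` with multipliers `r_j = ∏ t ∈ W, u t j` (for
example 1, 2^d, 3^d), bounded W and `h ≤ (log m)^C`. THEOREM W: the method of Lib/MP_9f2731_nt/SS (windows of
polylogarithmic length at boundedly many scales), with the powers of 2 replaced by the scales of the words of the
density Hales-Jewett theorem. Definitions and interfaces: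
Rc: DhjStmt → RcStmt; Asm: RcStmt → CorLStmt → MomLStmt → BasStmt → ResStmt.
A window (or a function) is indexed by its SCALE G (a natural number between 1 and B), where SS has the index e < D
and the scale 2^e.
-/

namespace Pool.Agent.Lib.MP_fb5b0b_nt.W

open Finset
open Pool.Agent.Lib.MP_9f2731_nt.GP
open Pool.Agent.Lib.MP_9f2731_nt.GP.Rel (av Ind pk HLFC Cut CutG)
open Pool.Agent.Lib.MP_9f2731_nt.GP.Asm (eb lfm)
open Pool.Agent.Lib.MP_9f2731_nt.SS (nl Fo dt CorLStmt MomLStmt Wq Rs Scl)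

/-! ### Scales -/

/-- the multipliers: for every t the numbers u t 0 < ... < u t (k - 1) are positive and increasing -/
def Mul (k : ℕ) (u : ℕ → ℕ → ℕ) : Prop :=
  (∀ t j : ℕ, j < k → 1 ≤ u t j) ∧ ∀ t i j : ℕ, i < j → j < k → u t i < u t j

/-- the scale of a word -/
def sc {k n : ℕ} (u : ℕ → ℕ → ℕ) (w : Fin n → Fin k) : ℕ := ∏ t : Fin n, u (t : ℕ) (w t : ℕ)

/-- the scales of a line: wildcard set W, product c0 of the fixed letters -/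
def pr (u : ℕ → ℕ → ℕ) (W : Finset ℕ) (c0 j : ℕ) : ℕ := c0 * ∏ t ∈ W, u t j

/-- k distinct scales between 1 and B -/
def Cok (k B : ℕ) (c : ℕ → ℕ) : Prop :=
  (∀ j : ℕ, j < k → 1 ≤ c j ∧ c j ≤ B) ∧ ∀ i j : ℕ, i < k → j < k → i ≠ j → c i ≠ c j

/-! ### Relative counting in windows -/

/-- the form `c_j a + h` in the variables `x 0, ..., x k`, `a = ∑_(l<k) x l`, `h = x k - ∑_(l<k) c_l x l`; it does
not contain `x j` -/
def Lf {N : ℕ} (k : ℕ) (c : ℕ → ℕ) (j : ℕ) (x : Fin (k + 1) → ZMod N) : ZMod N :=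
  ∑ l : Fin k, ((c j : ZMod N) - (c (l : ℕ) : ZMod N)) * x l.castSucc + x (Fin.last k)

/-- the functions of the k + 1 edges: `f (c j)` of the form j for j < k, `q` of `a` for j = k -/
def gW {N : ℕ} (k : ℕ) (f : ℕ → ZMod N → ℝ) (q : ZMod N → ℝ) (c : ℕ → ℕ) (j : Fin (k + 1))
    (x : Fin (k + 1) → ZMod N) : ℝ :=
  if (j : ℕ) < k then f (c j) (Lf k c j x) else q (∑ l : Fin k, x l.castSucc)

/-- Relative counting theorem in windows: functions at the scales of the words, dominated by pseudorandom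
majorants, with positive total mean contain the pattern `c_j a + h`, a small, c_j the scales of a line. -/
def RcStmt : Prop :=
  ∀ (k : ℕ) (u : ℕ → ℕ → ℕ) (δ : ℝ), 2 ≤ k → Mul k u → 0 < δ →
    ∃ n B : ℕ, 1 ≤ B ∧ (∀ w : Fin n → Fin k, sc u w ≤ B) ∧ ∃ (η : ℝ) (N0 : ℕ), 0 < η ∧
    ∀ (N : ℕ) [NeZero N], N.Prime → N0 ≤ N → ∀ ν f : ℕ → ZMod N → ℝ,
      (∀ G x, 0 ≤ f G x ∧ f G x ≤ ν G x) → (∀ G, 1 ≤ G → G ≤ B → LFC (k + 1) η (ν G)) →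
      (∀ c : ℕ → ℕ, Cok k B c → HLFC η (gW k ν (fun _ => 1) c)) →
      δ * (k : ℝ) ^ n * N ≤ ∑ w : Fin n → Fin k, ∑ x : ZMod N, f (sc u w) x →
      ∃ (W : Finset ℕ) (c0 : ℕ), W.Nonempty ∧ W ⊆ range n ∧ 1 ≤ c0 ∧ Cok k B (pr u W c0) ∧
        ∃ a h : ZMod N, 1 ≤ a.val ∧ a.val * (8 * B) < N ∧
          ∀ j : ℕ, j < k → 0 < f (pr u W c0 j) ((pr u W c0 j : ZMod N) * a + h)

/-! ### Windows -/

/-- the form belonging to the scale G and the point y: `Q (G b + y) + b0`, `Q = Wq M w` -/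
def fo {N : ℕ} (M w b0 G : ℕ) (y : ZMod N) : ℕ × ℕ := (Wq M w * G, Wq M w * y.val + b0)

/-- the majorant on the window of scale G belonging to b -/
noncomputable def nub (M w : ℕ) (κ : ℝ) (b0 X b : ℕ) {N : ℕ} (G : ℕ) (y : ZMod N) : ℝ :=
  nu 2 w ((X : ℝ) ^ κ) (nl (fo M w b0 G y) b)

open Classical in
/-- the normalized indicator of A on the middle part of the window -/
noncomputable def fb (M w : ℕ) (κ : ℝ) (b0 X b : ℕ) (A : Finset ℕ) {N : ℕ} (G : ℕ)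
    (y : ZMod N) : ℝ :=
  if N ≤ 4 * y.val ∧ 2 * y.val < N ∧ nl (fo M w b0 G y) b ∈ A then
    ((Wp w).totient / (Wp w) : ℝ) * Real.log ((X : ℝ) ^ κ) * (3 / 4)
  else 0

open Classical in
/-- singular term of two points of the windows -/
noncomputable def Xi (C : ℝ) (M w b0 : ℕ) {N : ℕ} (G G' : ℕ) (u v : ZMod N) : ℝ :=
  if G = G' ∧ u = v then 0 else sing C w (dt (fo M w b0 G u) (fo M w b0 G' v)) - 1

/-- A is a set of primes in (Z, 2 B Z] of mean logarithmic density at least δ in the blocks (s_i Z, 2 s_i Z] -/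
def Dens {ι : Type} [Fintype ι] (s : ι → ℕ) (B : ℕ) (δ : ℝ) (Z : ℕ) (A : Finset ℕ) : Prop :=
  (∀ p ∈ A, p.Prime ∧ Z < p ∧ p ≤ 2 * B * Z) ∧
    δ * (Fintype.card ι : ℝ) ≤
      ∑ i, ∑ p ∈ A.filter (fun p => s i * Z < p ∧ p ≤ 2 * s i * Z), Real.log p / p

/-- The main theorem for one base point Z. -/
def BasStmt : Prop :=
  ∀ k : ℕ, 3 ≤ k → ∃ C : ℝ, 0 < C ∧ ∀ u : ℕ → ℕ → ℕ, Mul k u → ∀ δ : ℝ, 0 < δ →
    ∃ n B : ℕ, 1 ≤ B ∧ (∀ w : Fin n → Fin k, sc u w ≤ B) ∧ ∀ M : ℕ, 1 ≤ M →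
    ∃ Z0 : ℕ, ∀ Z : ℕ, Z0 ≤ Z → ∀ A : Finset ℕ,
    Dens (fun w : Fin n → Fin k => sc u w) B δ Z A →
    ∃ (W : Finset ℕ) (c0 m h : ℕ), W.Nonempty ∧ W ⊆ range n ∧ 1 ≤ c0 ∧ Cok k B (pr u W c0) ∧
      1 ≤ m ∧ M ∣ m ∧ 1 ≤ h ∧ (h : ℝ) ≤ (Real.log Z) ^ C ∧
      ∀ j : ℕ, j < k → pr u W c0 j * m + h ∈ A

/-- THEOREM W -/
def ResStmt : Prop :=
  ∀ k : ℕ, ∃ C : ℝ, ∀ u : ℕ → ℕ → ℕ, Mul k u → ∀ δ : ℝ, 0 < δ → ∃ D : ℕ, ∀ M : ℕ, 1 ≤ M →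
    ∃ Z₀ : ℕ, ∀ Z Y : ℕ, Z₀ ≤ Z → 2 ^ D * Z ≤ Y → ∀ A : Finset ℕ,
    (∀ p ∈ A, p.Prime ∧ Z < p ∧ p ≤ Y) → δ * Real.log (Y / Z) ≤ ∑ p ∈ A, Real.log p / p →
    ∃ (W : Finset ℕ) (m h : ℕ), W.Nonempty ∧ W ⊆ range D ∧ 1 ≤ m ∧ M ∣ m ∧ 1 ≤ h ∧
      (h : ℝ) ≤ Real.log m ^ C ∧ ∀ j : ℕ, j < k → (∏ t ∈ W, u t j) * m + h ∈ A

end Pool.Agent.Lib.MP_fb5b0b_nt.W
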