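import Pool.Agent.Lib.MP_9f2731_nt.SS.SpecC
import Pool.Agent.Lib.MP_fb5b0b_nt.W.Defs

/-!
MP_fb5b0b_nt, THEOREM W (helper93). Rules: a module `X.lean` in this directory starts with
`import Pool.Agent.Lib.MP_fb5b0b_nt.W.Spec`, `namespace Pool.Agent.Lib.MP_fb5b0b_nt.W`, the five `open` lines of
this file, and proves the theorem `pX`; statements under Uses are hypotheses of `pX` in this order (`theorem pX (h1 :
S_A) (h2 : S_B) : S_X`). All modules are independent. MOST MODULES ARE ADAPTATIONS of the proved file of the same name in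
Pool/Agent/Lib/MP_9f2731_nt/SS (copy it and edit): there a window has an index e < D and the scale 2^e, here it is
indexed by its scale G, 1 ≤ G ≤ B; so `2 ^ e` becomes `G`, `e < D` becomes `1 ≤ G → G ≤ B`, `2 ^ D` becomes `B`, and
the exponents `ex j` (progression `pr e0 d`) become distinct scales `c j` (Cok k B c). The definitions fo, nub, fb, Xi,
Lf, gW are those of W/Defs.lean. Rename the private lemmas of the copied file only if you want.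
Notation of the proofs: Q = Wq M w = M * Wp w, L = log X, V = (φ(W)/W) log(X^κ) (3/4), W = Wp w;
`nl (fo M w b0 G y) b = Q (G b + y) + b0`.
-/

open Finset

namespace Pool.Agent.Lib.MP_fb5b0b_nt.W

open Pool.Agent.Lib.MP_9f2731_nt.GP
open Pool.Agent.Lib.MP_9f2731_nt.GP.Rel (av Ind pk HLFC Cut CutG)
open Pool.Agent.Lib.MP_9f2731_nt.GP.Asm (eb lfm)
open Pool.Agent.Lib.MP_9f2731_nt.SS (nl Fo dt CorLStmt MomLStmt Wq Rs Scl)

/-! ### Chapter Rc -/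

/-- **Lin** (the scales of a line). Uses: nothing. Proof. W = the values of the t with wl t = none (image of the
filter under Fin.val, or Finset.map), c0 = ∏ over the t with wl t = some i of u t i (for `none` the factor 1). For j < k
`lineMap wl j t` is j at the wildcards and the fixed letter elsewhere, so `sc u (lineMap wl j) = c0 ∏_(t ∈ W) u t j`
(split the product over Fin n by the predicate wl t = none: Finset.prod_filter_mul_prod_filter_not, or write the factor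
at t as (fixed letter factor) * (if wl t = none then u t j else 1)). c0 ≥ 1 because all factors are ≥ 1 (letters are
< k: Mul). Cok: the scales are ≥ 1 and ≤ B by the first part; for i < j < k ∏_(t∈W) u t i < ∏_(t∈W) u t j
(Finset.prod_lt_prod_of_nonempty: W nonempty, 0 < u t i < u t j), c0 ≥ 1. -/
def S_Lin : Prop :=
  ∀ (k n : ℕ) (u : ℕ → ℕ → ℕ) (wl : Fin n → Option (Fin k)), Mul k u → (∃ t, wl t = none) →
    ∃ (W : Finset ℕ) (c0 : ℕ), W.Nonempty ∧ W ⊆ range n ∧ 1 ≤ c0 ∧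
      (∀ (j : ℕ) (hj : j < k), pr u W c0 j = sc u (lineMap wl ⟨j, hj⟩)) ∧
      ∀ B : ℕ, (∀ w : Fin n → Fin k, sc u w ≤ B) → Cok k B (pr u W c0)

/-- **Pos** (positivity). Uses: DhjStmt, S_Lin. Proof as SS/Pos.lean (there Szemeredi's theorem, here directly DHJ). n
from DhjStmt for (k, δ/4), B = 1 + ∑_w sc u w (any bound), K = (k+1)^n = the number of the wl : Fin n → Option (Fin k),
`c = (δ/4) (δ/2)^k / K`. Fix a in Q. For h let `E(h) = {w : f (sc w) (sc w a + h) ≥ δ/2}`. For fixed w the map `h ↦ sc w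
a + h` is a bijection, so `∑_h ∑_w f (sc w) (sc w a + h) = ∑_w ∑_x f (sc w) x ≥ δ k^n N`, and `∑_w f (sc w) (sc w a + h)
≤ card E(h) + (δ/2) k^n`, `card E(h) ≤ k^n`. So at least `(δ/4) N` of the h have `card E(h) ≥ (δ/4) k^n`. For these h
there is a line wl (with a wildcard) with all points in E(h); its W, c0 from Lin (choose them for every wl with a
wildcard) have the product over j < k at least `(δ/2)^k`. Sum over a in Q, over h and over the at most K words wl with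
a wildcard: one of them has the sum ≥ c card Q N (all products are nonnegative). If card Q = 0 a wl with a wildcard is
still needed: it exists because the hypothesis (take a = 0) gives a good h. -/
def S_Pos : Prop :=
  ∀ (k : ℕ) (u : ℕ → ℕ → ℕ) (δ : ℝ), 2 ≤ k → Mul k u → 0 < δ →
    ∃ n B : ℕ, 1 ≤ B ∧ (∀ w : Fin n → Fin k, sc u w ≤ B) ∧ ∃ c : ℝ, 0 < c ∧ ∀ (N : ℕ) [NeZero N]
    (f : ℕ → ZMod N → ℝ) (Q : Finset (ZMod N)), (∀ G x, 0 ≤ f G x ∧ f G x ≤ 1) →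
    δ * (k : ℝ) ^ n * N ≤ ∑ w : Fin n → Fin k, ∑ x : ZMod N, f (sc u w) x →
    ∃ (W : Finset ℕ) (c0 : ℕ), W.Nonempty ∧ W ⊆ range n ∧ 1 ≤ c0 ∧ Cok k B (pr u W c0) ∧
      c * Q.card * N ≤ ∑ a ∈ Q, ∑ h : ZMod N,
        ∏ j ∈ range k, f (pr u W c0 j) ((pr u W c0 j : ZMod N) * a + h)

/-- **Cut** (change of variables). Uses: nothing. Proof as SS/Cut.lean with `2^(ex j)` replaced by `(c j : ZMod N)`. -/
def S_Cut : Prop :=
  ∀ (k N : ℕ) [NeZero N] (c : ℕ → ℕ) (j : Fin (k + 1)) (u : ZMod N → ℝ) (τ : ℝ), (j : ℕ) < k →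
    N.Prime → (∀ l l' : ℕ, l < k → l' < k → l ≠ l' → (c l : ZMod N) ≠ (c l' : ZMod N)) →
    CutG k τ u → Cut j τ (fun x => u (Lf k c j x))

/-- **Cfg** (the pattern). Uses: nothing. Proof as SS/Cfg.lean. -/
def S_Cfg : Prop :=
  ∀ (k N : ℕ) [NeZero N] (f : ℕ → ZMod N → ℝ) (q : ZMod N → ℝ) (c : ℕ → ℕ), 1 ≤ k →
    av (fun x : Fin (k + 1) → ZMod N => ∏ j, gW k f q c j x) =
      (∑ a : ZMod N, ∑ h : ZMod N, q a * ∏ j ∈ range k, f (c j) ((c j : ZMod N) * a + h)) /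
        (N : ℝ) ^ 2

/-- **Fnl** (relative counting theorem). Uses: S_Pos, GP.Rel.ClStmt, GP.Rel.DmtStmt, GP.Rel.NucStmt, S_Cut, S_Cfg. Proof
as SS/Fnl.lean. (n, B, c) from S_Pos for (k, u, δ/2); `c' = c/(16 B)`; (η1, τ1) from ClStmt for (k+1, c'/2); τ2 from DmtStmt
for (r = k, ε = min τ1 (δ/2)); η2 from NucStmt; `η = min η1 η2`, N0 larger than k and `32 B`. For the scales G, 1 ≤ G ≤ B:
dense model f' G of f G; f' G = 0 for the other G (the scales of words are ≥ 1 and ≤ B). Mean: |av (f G) - av (f' G)| ≤ δ/2, so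
∑_w ∑_x f' (sc w) x ≥ (δ/2) k^n N. Q = {a : 1 ≤ a.val, a.val (8 B) < N}, card Q ≥ (N-1)/(8B) ≥ N/(16 B) for N ≥ 32 B. W,
c0 from S_Pos, c = pr u W c0; the scales c j, j < k, are different numbers ≤ B < N, so different in ZMod N. The rest as
there. -/
def S_Fnl : Prop := RcStmt

/-! ### Chapter Asm -/

/-- **Fob** (the forms of the windows). Uses: nothing. Proof as SS/Fob.lean: the prime factors of G ≤ B ≤ w are ≤ w;
if the determinant is 0 then G b0 ≡ G' b0 mod Q, so G ≡ G' mod Q, both are ≤ B < Wp w ≤ Q: G = G', then y = y'. -/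
def S_Fob : Prop :=
  (∀ B : ℕ, ∃ w0 : ℕ, ∀ w : ℕ, w0 ≤ w → B < Wp w) ∧
  ∀ (M w B b0 N : ℕ) [NeZero N], 1 ≤ M → M ≤ w → 2 ≤ w → B ≤ w → B < Wp w → Rs M w b0 →
    ∀ G G' : ℕ, 1 ≤ G → G ≤ B → 1 ≤ G' → G' ≤ B → ∀ y y' : ZMod N, Fo w (fo M w b0 G y) ∧
      (¬(G = G' ∧ y = y') → dt (fo M w b0 G y) (fo M w b0 G' y') ≠ 0) ∧
      dt (fo M w b0 G y) (fo M w b0 G' y') ≤ Wq M w ^ 2 * B * N

/-- general mean value of products of the majorant over a family of maps ψ i into windows of scale ε i -/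
def GenOK (J : ℕ) (κ C C2 : ℝ) : Prop :=
  0 < κ ∧ κ < 1 ∧ 0 < C ∧ 0 < C2 ∧
  ∀ (B M : ℕ) (θ : ℝ), 1 ≤ M → 0 < θ → ∃ w0 : ℕ, ∀ w : ℕ, w0 ≤ w → ∃ X0 : ℝ, ∀ X : ℕ, X0 ≤ X →
    ∀ b0 : ℕ, Rs M w b0 → ∀ (N : ℕ) [NeZero N] (Y : Type) [Fintype Y] [Nonempty Y] (ι : Type)
    [DecidableEq ι] (I : Finset ι) (ε : ι → ℕ) (ψ : ι → Y → ZMod N), I.card ≤ J →
    (∀ i ∈ I, 1 ≤ ε i ∧ ε i ≤ B) →
    |eb X (fun b => av (fun y => ∏ i ∈ I, nub M w κ b0 X b (ε i) (ψ i y))) - 1| ≤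
      θ + C * ∑ i ∈ I, ∑ i' ∈ I.erase i, av (fun y => Xi C M w b0 (ε i) (ε i') (ψ i y) (ψ i' y)) +
        (Real.log X) ^ C2 * ∑ i ∈ I, ∑ i' ∈ I.erase i,
          av (fun y => if ε i = ε i' ∧ ψ i y = ψ i' y then (1 : ℝ) else 0)

/-- **Gen**. Uses: CorLStmt, MomLStmt, MP_9f2731_nt.SS.S_Sng, S_Fob. Proof as SS/Gen.lean (w0 also ≥ B). -/
def S_Gen : Prop := ∀ J : ℕ, 1 ≤ J → ∃ κ C C2 : ℝ, GenOK J κ C C2

/-- **Xav** (mean value of the singular terms). Uses: S_Fob, GP.Rom.ExpStmt, GP.Rom.TotStmt, GP.Rom.RlgStmt. Proof as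
SS/Xav.lean. -/
def S_Xav : Prop :=
  ∀ (B M : ℕ) (C η : ℝ), 1 ≤ M → 0 < C → 0 < η → ∃ w0 : ℕ, ∀ w : ℕ, w0 ≤ w → ∃ N0 : ℕ,
    ∀ (N : ℕ) [NeZero N], N0 ≤ N → ∀ b0 : ℕ, Rs M w b0 → ∀ G G' : ℕ, 1 ≤ G → G ≤ B → 1 ≤ G' →
    G' ≤ B → ∑ u : ZMod N, ∑ v : ZMod N, Xi C M w b0 G G' u v ≤ η * (N : ℝ) ^ 2

/-- **Avg** (mean value 1 for pairwise independent families). Uses: S_Xav. Proof as SS/Avg.lean. -/
def S_Avg : Prop :=
  ∀ (J : ℕ) (κ C C2 : ℝ), GenOK J κ C C2 → ∀ (B M : ℕ) (θ : ℝ), 1 ≤ M → 0 < θ → ∃ w0 : ℕ,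
    ∀ w : ℕ, w0 ≤ w → ∃ X0 : ℝ, ∀ X : ℕ, X0 ≤ X → ∀ b0 : ℕ, Rs M w b0 → ∀ (N : ℕ) [NeZero N], Scl (C2 + 2) X N →
    ∀ (Y : Type) [Fintype Y] [Nonempty Y] (ι : Type) [DecidableEq ι] (I : Finset ι) (ε : ι → ℕ)
    (ψ : ι → Y → ZMod N), I.card ≤ J → (∀ i ∈ I, 1 ≤ ε i ∧ ε i ≤ B) →
    (∀ i ∈ I, ∀ i' ∈ I, i ≠ i' → ∀ F : ZMod N × ZMod N → ℝ,
      av (fun y => F (ψ i y, ψ i' y)) = av F) →
    |eb X (fun b => av (fun y => ∏ i ∈ I, nub M w κ b0 X b (ε i) (ψ i y))) - 1| ≤ θ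

/-- **Eqd** (the forms Lf are pairwise equidistributed). Uses: nothing. Proof as SS/Eqd.lean. -/
def S_Eqd : Prop :=
  ∀ (k N : ℕ) [NeZero N] (c : ℕ → ℕ), N.Prime →
    (∀ l l' : ℕ, l < k → l' < k → l ≠ l' → (c l : ZMod N) ≠ (c l' : ZMod N)) →
    ∀ p p' : Fin (k + 1) × (Fin (k + 1) → Bool), (p.1 : ℕ) < k → (p'.1 : ℕ) < k →
    p.2 p.1 = false → p'.2 p'.1 = false →
    (∀ F : ZMod N → ℝ, av (fun x : Fin (k + 1) × Bool → ZMod N =>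
      F (Lf k c (p.1 : ℕ) (pk p.2 x))) = av F) ∧
    (p ≠ p' → ∀ F : ZMod N × ZMod N → ℝ, av (fun x : Fin (k + 1) × Bool → ZMod N =>
      F (Lf k c (p.1 : ℕ) (pk p.2 x), Lf k c (p'.1 : ℕ) (pk p'.2 x))) = av F)

/-- **Lf1** (linear forms condition in one window, in mean square). Uses: S_Avg, GP.Asm.EqdStmt. Proof as SS/Lf1.lean. -/
def S_Lf1 : Prop :=
  ∀ (k J : ℕ) (κ C C2 : ℝ), 2 ≤ k → 2 * ((k + 1) * 2 ^ (k + 1)) ≤ J → GenOK J κ C C2 →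
    ∀ (B M : ℕ) (θ : ℝ), 1 ≤ M → 0 < θ → ∃ w0 : ℕ, ∀ w : ℕ, w0 ≤ w → ∃ X0 : ℝ, ∀ X : ℕ, X0 ≤ X →
    ∀ b0 : ℕ, Rs M w b0 → ∀ (N : ℕ) [NeZero N], Scl (C2 + 2) X N → ∀ G : ℕ, 1 ≤ G → G ≤ B →
    ∀ S : Finset (Fin (k + 1) × (Fin (k + 1) → Bool)), (∀ p ∈ S, p.2 p.1 = false) →
      eb X (fun b => (lfm (k + 1) S (fun x : ZMod N => nub M w κ b0 X b G x) - 1) ^ 2) ≤ θ

/-- **Lf2** (linear forms condition for k distinct scales, in mean square). Uses: S_Avg, S_Eqd. Proof as SS/Lf2.lean: for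
X large N > B, so the distinct scales c j ≤ B are distinct in ZMod N. -/
def S_Lf2 : Prop :=
  ∀ (k J : ℕ) (κ C C2 : ℝ), 2 ≤ k → 2 * ((k + 1) * 2 ^ (k + 1)) ≤ J → GenOK J κ C C2 →
    ∀ (B M : ℕ) (θ : ℝ), 1 ≤ M → 0 < θ → ∃ w0 : ℕ, ∀ w : ℕ, w0 ≤ w → ∃ X0 : ℝ, ∀ X : ℕ, X0 ≤ X →
    ∀ b0 : ℕ, Rs M w b0 → ∀ (N : ℕ) [NeZero N], Scl (C2 + 2) X N → ∀ c : ℕ → ℕ, Cok k B c →
    ∀ S : Finset (Fin (k + 1) × (Fin (k + 1) → Bool)), (∀ p ∈ S, p.2 p.1 = false) →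
      eb X (fun b => (av (fun x : Fin (k + 1) × Bool → ZMod N => ∏ p ∈ S,
        gW k (fun G (y : ZMod N) => nub M w κ b0 X b G y) (fun _ => 1) c p.1 (pk p.2 x)) -
          1) ^ 2) ≤ θ

/-- **Sec** (second moment). Uses: S_Avg. Proof as SS/Sec.lean (sum over i : ι instead of e < D). -/
def S_Sec : Prop :=
  ∀ (J : ℕ) (κ C C2 : ℝ), 2 ≤ J → GenOK J κ C C2 → ∀ B M : ℕ, 1 ≤ M → ∃ w0 : ℕ, ∀ w : ℕ, w0 ≤ w →
    ∃ X0 : ℝ, ∀ X : ℕ, X0 ≤ X → ∀ b0 : ℕ, Rs M w b0 → ∀ (N : ℕ) [NeZero N], Scl (C2 + 2) X N →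
    ∀ (ι : Type) [Fintype ι] (s : ι → ℕ), (∀ i, 1 ≤ s i ∧ s i ≤ B) →
      eb X (fun b => (∑ i, av (fun x : ZMod N => nub M w κ b0 X b (s i) x)) ^ 2) ≤
        2 * (Fintype.card ι : ℝ) ^ 2

/-- **Maj**. Uses: nothing. Proof as SS/Maj.lean. -/
def S_Maj : Prop :=
  ∀ (M w b0 X b N : ℕ) [NeZero N] (κ : ℝ) (A : Finset ℕ), 0 < κ → 1 ≤ X →
    (∀ p ∈ A, p.Prime ∧ (X : ℝ) ^ κ < p) → ∀ (G : ℕ) (y : ZMod N),
      0 ≤ fb M w κ b0 X b A G y ∧ fb M w κ b0 X b A G y ≤ nub M w κ b0 X b G y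

/-- **Cnt** (every element of A is counted N/(8 G) times). Uses: nothing. Proof as SS/Cnt.lean. -/
def S_Cnt : Prop :=
  ∀ (M w b0 X N G : ℕ) [NeZero N] (A : Finset ℕ), Rs M w b0 → 1 ≤ G → 32 * G ≤ N →
    (N : ℝ) / (8 * G) * ((A.filter (fun n => n % Wq M w = b0 ∧ Wq M w * (2 * N) < n ∧
      n ≤ Wq M w * G * X)).card : ℝ) ≤
    ∑ b ∈ Icc 1 X, ((univ.filter (fun y : ZMod N => N ≤ 4 * y.val ∧ 2 * y.val < N ∧
      nl (fo M w b0 G y) b ∈ A)).card : ℝ)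

/-- **Blk** (choice of the residue class). Uses: nothing. Proof as SS/Blk.lean, simpler (no block has to be found). Every p in
A is a prime > Z > Q, so prime to Q, and b0 = p % Q satisfies Rs M w b0 (Q ≥ 2). For p ∈ A with s_i Z < p ≤ 2 s_i Z: log p / p ≤
log(2 B Z)/(s_i Z). So δ card ι ≤ ∑_(b0) ∑_i log(2BZ)/(s_i Z) card {..}, the sum over the φ(Q) classes b0; one of them has at
least the mean. -/
def S_Blk : Prop :=
  ∀ (ι : Type) [Fintype ι] (s : ι → ℕ) (B M w Z : ℕ) (δ : ℝ) (A : Finset ℕ), 1 ≤ M → 2 ≤ w → 0 < δ →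
    1 ≤ B → (∀ i, 1 ≤ s i ∧ s i ≤ B) → Wq M w < Z → Dens s B δ Z A →
    ∃ b0 : ℕ, Rs M w b0 ∧ δ * (Fintype.card ι : ℝ) * Z ≤
      ((Wq M w).totient : ℝ) * Real.log (2 * B * Z) *
      ∑ i, (1 / (s i : ℝ)) * ((A.filter (fun n => n % Wq M w = b0 ∧ s i * Z < n ∧
        n ≤ 2 * s i * Z)).card : ℝ)

/-- **Den** (density in the windows). Uses: S_Cnt, S_Blk. Proof as SS/Den.lean (Z0 = 2 B Q^2 + Q + 1, so that 2 B Z ≤ X^2). -/
def S_Den : Prop :=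
  ∀ (B M w : ℕ) (κ δ : ℝ), 0 < κ → 0 < δ → 1 ≤ B → 1 ≤ M → M ≤ w → 2 ≤ w → ∃ Z0 : ℕ, ∀ Z : ℕ,
    Z0 ≤ Z → ∀ (ι : Type) [Fintype ι] (s : ι → ℕ) (A : Finset ℕ), (∀ i, 1 ≤ s i ∧ s i ≤ B) →
    Dens s B δ Z A → ∃ b0 : ℕ, Rs M w b0 ∧ ∀ (N : ℕ) [NeZero N],
      32 * B ≤ N → Wq M w * (2 * N) ≤ Z →
      κ * δ * (Fintype.card ι : ℝ) / 100 ≤ eb (2 * Z / Wq M w + 1) (fun b => ∑ i,
        av (fun x : ZMod N => fb M w κ b0 (2 * Z / Wq M w + 1) b A (s i) x))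

/-- **Pts** (from the group to integers). Uses: nothing. Proof as SS/Pts.lean: 8 (c_j a.val) ≤ 8 B a.val < N. -/
def S_Pts : Prop :=
  ∀ (B N k : ℕ) [NeZero N] (c : ℕ → ℕ) (a h : ZMod N), 1 ≤ k → (∀ j : ℕ, j < k → c j ≤ B) →
    a.val * (8 * B) < N → (∀ j : ℕ, j < k → N ≤ 4 * ((c j : ZMod N) * a + h).val ∧
      2 * ((c j : ZMod N) * a + h).val < N) →
    ∃ h' : ℕ, h' < N ∧ ∀ j : ℕ, j < k → ((c j : ZMod N) * a + h).val = c j * a.val + h'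

/-- **Bas** (main step). Uses: RcStmt, S_Gen, S_Fob, S_Lf1, S_Lf2, S_Sec, S_Maj, S_Den, S_Pts, GP.Asm.SelStmt. Proof as
SS/Bas.lean. C = C2 + 4 does not depend on u. Given u, δ: δ1 = κ δ/200, (n, B, η, N0) from RcStmt for (k, u, δ1); D there is k^n here
(ι = Fin n → Fin k, card k^n). The conditions: LFC for 1 ≤ G ≤ B and HLFC for all Cok k B c; gW depends only on c j, j < k, so
it is enough to treat the finitely many c = (fun j => if h : j < k then e ⟨j, h⟩ else 0) with e : Fin k → Fin (B + 1) (gW k f q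
c = gW k f q c' if c and c' agree below k). N ≥ 32 B. The scales sc u w are ≥ 1 (all factors are) and ≤ B. At the end m = Q (b +
a.val), h = Q h' + b0: pr j (Q (b + a.val)) + (Q h' + b0) = Q pr j b + (Q (pr j a.val + h') + b0). -/
def S_Bas : Prop := BasStmt

/-- **Lng** (sets in long intervals). Uses: S_Bas. Proof. k' = max k 3, u' = the extension u' t j = u t j for j < k,
u' t j = (∑_(i<k) u t i) + 1 + j for j ≥ k (Mul k' u'). C1 from BasStmt for k', C = C1 + 1. Given u, δ: (n, B) from BasStmt for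
(k', u', δ/12). E = the sum over the primes p of A with Z < p ≤ B Z of log p/p is at most B log 4 (log p/p ≤ log p/Z and
∑_(p ≤ BZ) log p ≤ log 4 B Z, Chebyshev.theta_le_log4_mul_x). D = a natural number with D ≥ n, D ≥ 2 and (δ/2) D log 2 ≥ B log 4.
Given M: Z0 from BasStmt (base points Z' ≥ Z0). J = the least natural number with Y ≤ 2^J Z (or Nat.clog 2 of Y/Z
rounded up); then J ≤ log(Y/Z)/log 2 + 1 ≤ 3 log(Y/Z) (as log(Y/Z) ≥ D log 2 ≥ 1, D ≥ 2). For every word w (scale s = sc u' w ≤ B) the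
blocks (s 2^j Z, s 2^(j+1) Z], j < J, cover (s Z, s 2^J Z] ⊇ (B Z, Y], so ∑_(j<J) ∑_(p ∈ A, s 2^j Z < p ≤ 2 s 2^j Z) log p/p ≥ ∑_(p ∈ A)
log p/p - E ≥ (δ/2) log(Y/Z) (telescoping: induction on J). Sum over w, exchange: some j < J has ∑_w ∑_p ≥ (δ/2) log(Y/Z) k'^n/J ≥ (δ/6)
k'^n. Z' = 2^j Z, A' = the p in A with Z' < p ≤ 2 B Z': Dens for δ/12 (the filters agree as 1 ≤ s ≤ B). BasStmt: W, c0, m', h. m
= c0 m'. h ≤ (log Z')^C1, and (pr 0) m' + h > Z', pr 0 ≤ B, h ≤ Z'/2 for Z' large, so m' ≥ Z'/(2B) ≥ sqrt Z', log Z' ≤ 2 log m', and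
(2 log m')^C1 ≤ (log m')^(C1+1) ≤ (log m)^C for Z' large (all size conditions are conditions on Z ≤ Z', they go into Z₀,
which may depend on M, B, C1, δ). W ⊆ range n ⊆ range D; c0 ∏ u' t j m' + h = (∏_(t∈W) u t j) m + h for j < k. -/
def S_Lng : Prop := ResStmt

end Pool.Agent.Lib.MP_fb5b0b_nt.W
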